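import Pool.Agent.H93.FN.Lsm
import Pool.Agent.H93.HM.Lhm

/-!
# [H93 FN LSB] The homology of a disjoint union of wedges of spheres

`Lam c = Σ_f c_f [lch f]`, `LamE i c = Σ_d (i d)_* (Lam (c d))`.

PROOFS (complete). `LamE i c = asm R i k (mapRange Lam c)` (`Finsupp.lhom_ext'`). `lam_cyc`: `chr_cyc`. `lame_cyc`: `Finsupp` induction, `dC_mapC`. `ls_ne`: `z = asm c` (`asm_surj`), every `c d` is a cycle (`asm_cyc`), a boundary (`lw_ne`), `asm_of_bd`. `ls_eq`: `z = asm c`, every `c d` is a cycle,
`lw_eq` gives `x d : F →₀ R` with `c d - Lam (x d) ∈ range`; take `x d = 0` for `d ∉ c.support`, `x : D →₀ (F →₀ R)` by `Finsupp.onFinset c.support`; `z - LamE i x = asm (c - mapRange Lam x)`, `asm_of_bd`. `ls_inj`: `asm_bd`: every `Lam (c d)` is a boundary, `lw_inj`.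
(`Lam c` is `c.sum fun f a => a • gC R (lch f)` by `Finsupp.linearCombination_apply`.)
-/

set_option autoImplicit false

namespace Pool.H93.FN

open Pool.Agent.H4.CU Pool.H93.HM

variable (R : Type) [CommRing R]

/-- combinations of the spheres -/
noncomputable def Lam (F : Type) [TopologicalSpace F] [DiscreteTopology F] (k : ℕ) :
    (F →₀ R) →ₗ[R] Ch R (LW F k) k :=
  Finsupp.linearCombination R fun f => gC R (lch f)

variable {D E F : Type} [TopologicalSpace D] [DiscreteTopology D] [TopologicalSpace E]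
  [TopologicalSpace F] [DiscreteTopology F] {k : ℕ}

/-- combinations of the spheres in the copies -/
noncomputable def LamE (i : D → C(LW F k, E)) : (D →₀ (F →₀ R)) →ₗ[R] Ch R E k :=
  Finsupp.lsum R fun d => mapC R k (i d) ∘ₗ Lam R F k

private theorem lsb_bd {F : Type} [TopologicalSpace F] {k : ℕ} (f : F) (i : Fin (k + 1)) (e : J)
    (he : e = 0 ∨ e = 1) (x : Qb k) :
    face i e (lch f : Cb (LW F (k + 1)) (k + 1)) x = lw0 F (k + 1) := by
  have h1 : (i.insertNth e x : Qb (k + 1)) ∈ Pool.H93.HU.Bd (k + 1) := by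
    refine ⟨i, ?_⟩
    rcases he with rfl | rfl
    · left
      exact Fin.insertNth_apply_same _ _ _
    · right
      exact Fin.insertNth_apply_same _ _ _
  have h2 : ((f, (i.insertNth e x : Qb (k + 1))) : F × Qb (k + 1)) ∈ bF F (k + 1) := h1
  have h3 : face i e (lch f : Cb (LW F (k + 1)) (k + 1)) x =
      Pool.Agent.H18.AR.PO.jB (bF F (k + 1)) (fun _ : F × Qb (k + 1) => ())
        (f, (i.insertNth e x : Qb (k + 1))) := rfl
  rw [h3, Pool.Agent.H18.AR.PO.jB_mem h2]
  rfl

private theorem lsb_cyc {F : Type} [TopologicalSpace F] {k : ℕ} (f : F) :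
    dC R (LW F (k + 1)) k (gC R (lch f)) = 0 := by
  rw [dC_gC]
  refine Finset.sum_eq_zero fun i _ => ?_
  have h1 : face i 0 (lch f : Cb (LW F (k + 1)) (k + 1)) = face i 1 (lch f) := by
    ext x
    rw [lsb_bd f i 0 (Or.inl rfl) x, lsb_bd f i 1 (Or.inr rfl) x]
  rw [h1, sub_self, smul_zero]

theorem lam_cyc (c : F →₀ R) : dC R (LW F (k + 1)) k (Lam R F (k + 1) c) = 0 := by
  unfold Lam
  induction c using Finsupp.induction_linear with
  | zero => rw [map_zero, map_zero]
  | add x y hx hy => rw [map_add, map_add, hx, hy, add_zero]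
  | single f a => rw [Finsupp.linearCombination_single, map_smul, lsb_cyc, smul_zero]

private theorem lame_single (i : D → C(LW F k, E)) (d : D) (y : F →₀ R) :
    LamE R i (Finsupp.single d y) = mapC R k (i d) (Lam R F k y) := by
  unfold LamE
  rw [Finsupp.lsum_single]
  rfl

theorem lame_cyc (i : D → C(LW F (k + 1), E)) (c : D →₀ (F →₀ R)) :
    dC R E k (LamE R i c) = 0 := by
  induction c using Finsupp.induction_linear with
  | zero => rw [map_zero, map_zero]
  | add x y hx hy => rw [map_add, map_add, hx, hy, add_zero]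
  | single d y =>
    rw [lame_single]
    have h1 : dC R E k (mapC R (k + 1) (i d) (Lam R F (k + 1) y)) =
        mapC R k (i d) (dC R (LW F (k + 1)) k (Lam R F (k + 1) y)) :=
      congrArg (fun g => g (Lam R F (k + 1) y)) (dC_mapC (R := R) (n := k) (i d))
    rw [h1, lam_cyc, map_zero]

private theorem lame_asm (i : D → C(LW F k, E)) (c : D →₀ (F →₀ R)) :
    LamE R i c = asm R i k (Finsupp.mapRange.linearMap (Lam R F k) c) := by
  induction c using Finsupp.induction_linear with
  | zero => rw [map_zero, map_zero, map_zero]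
  | add x y hx hy => rw [map_add, map_add, map_add, hx, hy]
  | single d y =>
    rw [lame_single, Finsupp.mapRange.linearMap_apply, Finsupp.mapRange_single]
    unfold asm
    rw [Finsupp.lsum_single]

variable [Finite F]

theorem ls_ne {i : D → C(LW F k, E)} (h : LSum i) (n : ℕ) (hn : n + 1 ≠ k) (z : Ch R E (n + 1))
    (hz : dC R E n z = 0) : z ∈ LinearMap.range (dC R E (n + 1)) := by
  obtain ⟨c, rfl⟩ := asm_surj R h (n + 1) z
  exact asm_of_bd R i (n + 1) c fun d => lw_ne R n hn (c d) (asm_cyc R h n c hz d)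

theorem ls_eq {i : D → C(LW F (k + 1), E)} (h : LSum i) (z : Ch R E (k + 1))
    (hz : dC R E k z = 0) :
    ∃ c : D →₀ (F →₀ R), z - LamE R i c ∈ LinearMap.range (dC R E (k + 1)) := by
  classical
  obtain ⟨c, rfl⟩ := asm_surj R h (k + 1) z
  have h1 : ∀ d, ∃ x : F →₀ R, c d - Lam R F (k + 1) x ∈ LinearMap.range (dC R (LW F (k + 1)) (k + 1)) := by
    intro d
    obtain ⟨x, hx⟩ := lw_eq R (c d) (asm_cyc R h k c hz d)
    refine ⟨x, ?_⟩
    unfold Lam
    rw [Finsupp.linearCombination_apply]
    exact hx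
  choose x hx using h1
  let y : D →₀ (F →₀ R) := Finsupp.onFinset c.support (fun d => if c d = 0 then 0 else x d) (by
    intro d hd
    rw [Finsupp.mem_support_iff]
    intro h2
    exact hd (if_pos h2))
  refine ⟨y, ?_⟩
  rw [lame_asm, ← map_sub]
  refine asm_of_bd R i (k + 1) _ fun d => ?_
  rw [Finsupp.sub_apply, Finsupp.mapRange.linearMap_apply, Finsupp.mapRange_apply]
  have hy : y d = if c d = 0 then 0 else x d := rfl
  rw [hy]
  by_cases hd : c d = 0
  · rw [if_pos hd, hd, map_zero, sub_zero]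
    exact Submodule.zero_mem _
  · rw [if_neg hd]
    exact hx d

theorem ls_inj {i : D → C(LW F (k + 1), E)} (h : LSum i) (c : D →₀ (F →₀ R))
    (hc : LamE R i c ∈ LinearMap.range (dC R E (k + 1))) : c = 0 := by
  rw [lame_asm] at hc
  refine Finsupp.ext fun d => ?_
  have h1 := asm_bd R h (k + 1) _ hc d
  rw [Finsupp.mapRange.linearMap_apply, Finsupp.mapRange_apply] at h1
  unfold Lam at h1
  rw [Finsupp.linearCombination_apply] at h1
  exact lw_inj R (c d) h1

end Pool.H93.FN
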