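import Pool.Agent.H93.FN.Cof
import Pool.Agent.H93.FN.Lsb
import Pool.Agent.H93.HM.Hhc
import Pool.Agent.H93.HM.Hsu

/-!
# [H93 FN CHS] The choice of the spheres

PROOFS (complete). `weq_lch`: `ContinuousMap.ext`; `lch x y = PO.jB _ _ (x, y) = Wdg.sph x y`, `Wdg.weq_sph ht s x.gr x.ix y`. `sph_comb`: `hh_comb ℤ c (fun f => lch f)` (`q = 2`, `x₀ = lw0`, `lch_bd`), the loop `⟨w, _⟩ : GenLoop (Fin 3) _ Wdg.pt` (`Wdg.pt` is `lw0` by `rfl`;
`Cube.boundary (Fin 3)` is `HU.Bd 3`), `Int.cast_id`. `wmap`: let `w` be the continuous map `weq s`; for `c = single x a`: `mapC w (Lam c) = a • mapC (act x.gr) (gC (s x.ix))`, `gC (s j) = Lam (A j) + d ..`, `mapC (act g) (Lam c') = Lam (mapDomain (g • ·) c')`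
(`act g ∘ lch x = lch (g • x)`: `Wdg.smul_sph`), `dC_mapC`, and `hA`: `mapDomain (x.gr • ·) (A x.ix) = TT (single x 1)`. Linear induction.
`loop_of`: `hur_surj` with `p = 1`.
-/

set_option autoImplicit false

namespace Pool.H93.FN

open Pool.Agent.H4.CU Pool.Agent.H18.AR Pool.Agent.H59.FS Pool.H93.HM

variable {K : Type} [Group K] {r : ℕ}

/-- the cube of a pointed cube of the wedge -/
def gl (s : GenLoop (Fin 3) (Wdg K r 3) Wdg.pt) : Cb (LW (Sx K r) 3) 3 := s.1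

theorem weq_lch {T : Type} [TopologicalSpace T] [MulAction K T] [ContinuousConstSMul K T] {t0 : T}
    (ht : ∀ a : K, a • t0 = t0) (s : Fin r → GenLoop (Fin 3) T t0) (w : C(LW (Sx K r) 3, T))
    (hw : ∀ z, w z = Wdg.weq s z) (x : Sx K r) :
    w.comp (lch x) = (act x.gr).comp (s x.ix).1 := by
  refine ContinuousMap.ext fun y => ?_
  have h1 : (w.comp (lch x)) y = w ((lch x : Cb (LW (Sx K r) 3) 3) y) := rfl
  have h2 : ((lch x : Cb (LW (Sx K r) 3) 3) y) = (Wdg.sph x y : Wdg K r 3) := rfl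
  rw [h1, hw, h2]
  exact Wdg.weq_sph ht s x.gr x.ix y

theorem sph_comb [Finite K] (c : Sx K r →₀ ℤ) :
    ∃ s : GenLoop (Fin 3) (Wdg K r 3) Wdg.pt,
      gC ℤ (gl s) - Lam ℤ (Sx K r) 3 c ∈
        LinearMap.range (dC ℤ (LW (Sx K r) 3) 3) := by
  obtain ⟨w, hw, h⟩ := hh_comb ℤ (x₀ := lw0 (Sx K r) 3) (q := 2) c
    (fun f => (lch f : Cb (LW (Sx K r) 3) 3)) (fun f y hy => lch_bd f y hy)
  refine ⟨⟨w, hw⟩, ?_⟩
  have h1 : gC ℤ (gl (⟨w, hw⟩ : GenLoop (Fin 3) (Wdg K r 3) Wdg.pt)) = gC ℤ w := rfl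
  have h2 : Lam ℤ (Sx K r) 3 c =
      c.sum fun f a => (a : ℤ) • gC ℤ (lch f : Cb (LW (Sx K r) 3) 3) := by
    unfold Lam
    rw [Finsupp.linearCombination_apply]
  rw [h1, h2]
  exact h

/-- the translations of the wedge -/
private noncomputable def chsA [ContinuousConstSMul K (Wdg K r 3)] (g : K) :
    C(LW (Sx K r) 3, LW (Sx K r) 3) := (act g : C(Wdg K r 3, Wdg K r 3))

/-- the action on the combinations of the spheres -/
private theorem chs_lam [ContinuousConstSMul K (Wdg K r 3)] (g : K) (c : Sx K r →₀ ℤ) :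
    Lam ℤ (Sx K r) 3 (Finsupp.mapDomain (fun y => g • y) c) =
      mapC ℤ 3 (chsA g) (Lam ℤ (Sx K r) 3 c) := by
  induction c using Finsupp.induction_linear with
  | zero => rw [Finsupp.mapDomain_zero, map_zero, map_zero]
  | add x y hx hy => rw [Finsupp.mapDomain_add, map_add, map_add, map_add, hx, hy]
  | single x a =>
    have h1 : (chsA g).comp (lch x : Cb (LW (Sx K r) 3) 3) =
        (lch (g • x) : Cb (LW (Sx K r) 3) 3) := ContinuousMap.ext fun y => Wdg.smul_sph g x y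
    rw [Finsupp.mapDomain_single]
    unfold Lam
    rw [Finsupp.linearCombination_single, Finsupp.linearCombination_single, map_smul, mapC_gC, h1]

theorem wmap [Finite K] (A : Fin r → (Sx K r →₀ ℤ)) (TT : (Sx K r →₀ ℤ) →ₗ[ℤ] (Sx K r →₀ ℤ))
    (hA : ∀ x : Sx K r, TT (Finsupp.single x 1) = Finsupp.mapDomain (fun y => x.gr • y) (A x.ix))
    (s : Fin r → GenLoop (Fin 3) (Wdg K r 3) Wdg.pt)
    (hs : ∀ j, gC ℤ (gl (s j)) - Lam ℤ (Sx K r) 3 (A j) ∈
      LinearMap.range (dC ℤ (LW (Sx K r) 3) 3))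
    (w : C(LW (Sx K r) 3, LW (Sx K r) 3)) (hw : ∀ z, w z = Wdg.weq s z) (c : Sx K r →₀ ℤ) :
    mapC ℤ 3 w (Lam ℤ (Sx K r) 3 c) - Lam ℤ (Sx K r) 3 (TT c) ∈
      LinearMap.range (dC ℤ (LW (Sx K r) 3) 3) := by
  haveI : ContinuousConstSMul K (Wdg K r 3) := Wdg.wdg_csm
  induction c using Finsupp.induction_linear with
  | zero =>
    rw [map_zero, map_zero, map_zero, map_zero, sub_zero]
    exact Submodule.zero_mem _
  | add x y hx hy =>
    have h1 : mapC ℤ 3 w (Lam ℤ (Sx K r) 3 (x + y)) - Lam ℤ (Sx K r) 3 (TT (x + y)) =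
        (mapC ℤ 3 w (Lam ℤ (Sx K r) 3 x) - Lam ℤ (Sx K r) 3 (TT x)) +
          (mapC ℤ 3 w (Lam ℤ (Sx K r) 3 y) - Lam ℤ (Sx K r) 3 (TT y)) := by
      rw [map_add, map_add, map_add, map_add]
      abel
    rw [h1]
    exact Submodule.add_mem _ hx hy
  | single x a =>
    have h1 : Finsupp.single x a = a • Finsupp.single x (1 : ℤ) := by
      rw [Finsupp.smul_single, smul_eq_mul, mul_one]
    have h2 : Lam ℤ (Sx K r) 3 (Finsupp.single x (1 : ℤ)) = gC ℤ (lch x : Cb (LW (Sx K r) 3) 3) := by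
      unfold Lam
      rw [Finsupp.linearCombination_single, one_smul]
    have h3 : mapC ℤ 3 w (gC ℤ (lch x : Cb (LW (Sx K r) 3) 3)) =
        mapC ℤ 3 (chsA x.gr) (gC ℤ (gl (s x.ix))) := by
      have h4 := weq_lch (T := Wdg K r 3) (fun a => Wdg.smul_pt a) s w hw x
      rw [mapC_gC, mapC_gC]
      exact congrArg (gC ℤ) h4
    obtain ⟨v, hv⟩ := hs x.ix
    have h5 : mapC ℤ 3 w (Lam ℤ (Sx K r) 3 (Finsupp.single x 1)) -
        Lam ℤ (Sx K r) 3 (TT (Finsupp.single x 1)) ∈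
        LinearMap.range (dC ℤ (LW (Sx K r) 3) 3) := by
      rw [h2, h3, hA, chs_lam, ← map_sub, ← hv]
      exact ⟨mapC ℤ 4 (chsA x.gr) v, congrArg (fun g => g v) (dC_mapC (R := ℤ) (n := 3) (chsA x.gr))⟩
    rw [h1, map_smul, map_smul, map_smul, map_smul, ← smul_sub]
    exact Submodule.smul_mem _ _ h5

theorem loop_of {X : Type} [TopologicalSpace X] (hF : ∀ j < 3, Pool.H93.HU.Fil X j) (x₀ : X)
    (z : Ch ℤ X 3) (hz : dC ℤ X 2 z = 0) :
    ∃ s : GenLoop (Fin 3) X x₀, z - gC ℤ (s.1 : Cb X 3) ∈ LinearMap.range (dC ℤ X 3) := by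
  obtain ⟨s, hs, h⟩ := hur_surj (p := 1) hF x₀ z hz
  exact ⟨⟨s, hs⟩, h⟩

end Pool.H93.FN
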