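import Pool.Agent.H18.AR.Far

/-!
# [H93 FN COF] The coefficients

`Te M`: the idempotent `(g, j) ↦ Σ_{i,p} e j i p (g ι(p), i)` on `ℤ[Sx]`. `psi M`: from the coefficients `(w, (g, i))` to the group ring, `rep w * g` in the component `i`.

PROOFS (complete; all by linearity on `single`, `Finsupp.induction_linear` or `Finsupp.lhom_ext'`). `te_idem`: `Te (Te (g, j)) = Σ_{i,p} e j i p Σ_{l,p'} e i l p' (g ι(p) ι(p'), l)`; substitute `p'' = p p'` in the inner sum (`Equiv.mulLeft p`, `Equiv.sum_comp`), exchange the sums,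
`he j l p''`. `te_smul`: `Sx.smul_of`, `mul_assoc`. `psi_surj`: `x = Σ_i Pi.single i (x i)`; for `Pi.single i (single g a)`: `w = Cst.of _ g`, `w.rep⁻¹ * g ∈ RP M` (`Cst.of_rep`, `Cst.of_eq`), `b = single w (single (Sx.of ⟨w.rep⁻¹ * g, _⟩ i) a)`.
`psi_inj`: define the inverse `θ : (Fin r → (M.G →₀ ℤ)) → ..`, `Pi.single i (single g 1) ↦ single (Cst.of _ g) (single (Sx.of ⟨(Cst.of _ g).rep⁻¹ * g, _⟩ i) 1)` (sum over `i` of `Finsupp.linearCombination`), `θ (psi b) = b`: for `g = w.rep * x.gr`: `Cst.of _ g = w`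
(`Cst.of_eq`, `Cst.of_rep`: `w.rep⁻¹ * (w.rep * x.gr) = x.gr ∈ RP M`), `w.rep⁻¹ * g = x.gr`; `θ` gives `psi_surj` too.
`psi_te`: for `b = single w (single x 1)`: left: `Σ_p e x.ix i p single (w.rep * (x.gr * ι p)) 1` (`Pi.single` evaluated at `i`), right: `mulE`: `Σ_j Σ_p e j i p mapDomain (· * ι p) (psi b j)`, only `j = x.ix` contributes. `((rp M p : RP M) : M.G) = M.ι p` by `rfl`.
`comb_lin`: `C = Σ_j (Finsupp.lsum .. ) ∘ proj j`. `comb_psi`: unfold, `Pi.single`, `Finset.sum_eq_single x.ix`, `Finsupp.sum_single_index`.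
-/

set_option autoImplicit false

namespace Pool.H93.FN

open Pool.Agent.H18.AR Pool.Agent.H59.FS

variable {P : Type} [Group P] [Fintype P] {r : ℕ} {e : Fin r → Fin r → P → ℤ}

/-- the isomorphism of `P` onto the finite subgroup -/
noncomputable def rp (M : Model P r e) : P →* RP M := M.ι.rangeRestrict

/-- the idempotent on the coefficients of the spheres -/
noncomputable def Te (M : Model P r e) : (Sx (RP M) r →₀ ℤ) →ₗ[ℤ] (Sx (RP M) r →₀ ℤ) :=
  Finsupp.linearCombination ℤ fun x => ∑ i : Fin r, ∑ p : P,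
    e x.ix i p • Finsupp.single (Sx.of (x.gr * rp M p) i) (1 : ℤ)

private theorem te_single (M : Model P r e) (x : Sx (RP M) r) (a : ℤ) :
    Te M (Finsupp.single x a) = a • ∑ i : Fin r, ∑ p : P,
      e x.ix i p • Finsupp.single (Sx.of (x.gr * rp M p) i) (1 : ℤ) := by
  unfold Te
  rw [Finsupp.linearCombination_single]

private theorem te_ix (M : Model P r e) (g : RP M) (j : Fin r) : (Sx.of g j).ix = j := rfl

private theorem te_gr (M : Model P r e) (g : RP M) (j : Fin r) : (Sx.of g j).gr = g := rfl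

theorem te_idem (M : Model P r e) (he : IsIdem e) (c : Sx (RP M) r →₀ ℤ) :
    Te M (Te M c) = Te M c := by
  induction c using Finsupp.induction_linear with
  | zero => simp only [map_zero]
  | add a b ha hb => rw [map_add, map_add, ha, hb]
  | single x a =>
    rw [te_single, map_zsmul]
    refine congrArg (fun t => a • t) ?_
    rw [map_sum]
    have h1 : ∀ i : Fin r, Te M (∑ p : P, e x.ix i p • Finsupp.single (Sx.of (x.gr * rp M p) i) (1 : ℤ)) =
        ∑ p : P, ∑ l : Fin r, ∑ s : P, (e x.ix i p * e i l (p⁻¹ * s)) •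
          Finsupp.single (Sx.of (x.gr * rp M s) l) (1 : ℤ) := by
      intro i
      rw [map_sum]
      refine Finset.sum_congr rfl fun p _ => ?_
      rw [map_zsmul, te_single, one_smul, Finset.smul_sum]
      refine Finset.sum_congr rfl fun l _ => ?_
      rw [Finset.smul_sum, te_ix, te_gr]
      rw [← Equiv.sum_comp (Equiv.mulLeft p⁻¹)]
      refine Finset.sum_congr rfl fun q _ => ?_
      rw [Equiv.coe_mulLeft, smul_smul, mul_assoc, ← map_mul, mul_inv_cancel_left]
    rw [Finset.sum_congr rfl fun i _ => h1 i]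
    have h2 : ∑ i : Fin r, ∑ p : P, ∑ l : Fin r, ∑ s : P, (e x.ix i p * e i l (p⁻¹ * s)) •
          Finsupp.single (Sx.of (x.gr * rp M s) l) (1 : ℤ) =
        ∑ l : Fin r, ∑ s : P, ∑ i : Fin r, ∑ p : P, (e x.ix i p * e i l (p⁻¹ * s)) •
          Finsupp.single (Sx.of (x.gr * rp M s) l) (1 : ℤ) := by
      have h3 : ∀ i : Fin r, ∑ p : P, ∑ l : Fin r, ∑ s : P, (e x.ix i p * e i l (p⁻¹ * s)) •
          Finsupp.single (Sx.of (x.gr * rp M s) l) (1 : ℤ) =
          ∑ l : Fin r, ∑ s : P, ∑ p : P, (e x.ix i p * e i l (p⁻¹ * s)) •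
          Finsupp.single (Sx.of (x.gr * rp M s) l) (1 : ℤ) := by
        intro i
        rw [Finset.sum_comm]
        exact Finset.sum_congr rfl fun l _ => Finset.sum_comm
      rw [Finset.sum_congr rfl fun i _ => h3 i, Finset.sum_comm]
      exact Finset.sum_congr rfl fun l _ => Finset.sum_comm
    rw [h2]
    refine Finset.sum_congr rfl fun l _ => Finset.sum_congr rfl fun s _ => ?_
    rw [← he x.ix l s, Finset.sum_smul]
    exact Finset.sum_congr rfl fun i _ => (Finset.sum_smul).symm

theorem te_smul (M : Model P r e) (g : RP M) (c : Sx (RP M) r →₀ ℤ) :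
    Te M (Finsupp.mapDomain (fun x => g • x) c) = Finsupp.mapDomain (fun x => g • x) (Te M c) := by
  induction c using Finsupp.induction_linear with
  | zero => simp only [Finsupp.mapDomain_zero, map_zero]
  | add a b ha hb => rw [Finsupp.mapDomain_add, map_add, ha, hb, map_add, Finsupp.mapDomain_add]
  | single x a =>
    have h1 : ∀ d : Sx (RP M) r →₀ ℤ, Finsupp.mapDomain (fun x => g • x) d =
        Finsupp.lmapDomain ℤ ℤ (fun x => g • x) d := fun d => rfl
    rw [h1 (Te M _), te_single, Finsupp.mapDomain_single, te_single, map_zsmul, map_sum]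
    refine congrArg (fun t => a • t) (Finset.sum_congr rfl fun i _ => ?_)
    rw [map_sum]
    refine Finset.sum_congr rfl fun p _ => ?_
    rw [map_zsmul, Finsupp.lmapDomain_apply, Finsupp.mapDomain_single, Sx.smul_of, ← mul_assoc]
    rfl

/-- from the coefficients to the group ring -/
noncomputable def psi (M : Model P r e) :
    (Cst (RP M) →₀ (Sx (RP M) r →₀ ℤ)) →ₗ[ℤ] (Fin r → (M.G →₀ ℤ)) :=
  Finsupp.lsum ℤ fun w => Finsupp.linearCombination ℤ fun x =>
    Pi.single x.ix (Finsupp.single (w.rep * (x.gr : M.G)) (1 : ℤ))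

private theorem psi_single (M : Model P r e) (w : Cst (RP M)) (x : Sx (RP M) r) (a : ℤ) :
    psi M (Finsupp.single w (Finsupp.single x a)) =
      a • (Pi.single x.ix (Finsupp.single (w.rep * (x.gr : M.G)) (1 : ℤ)) :
        Fin r → (M.G →₀ ℤ)) := by
  unfold psi
  rw [Finsupp.lsum_single, Finsupp.linearCombination_single]

/-- the bijection behind `psi` -/
private noncomputable def psiE (M : Model P r e) : Cst (RP M) × Sx (RP M) r ≃ Fin r × M.G where
  toFun z := (z.2.ix, z.1.rep * (z.2.gr : M.G))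
  invFun z := (Cst.of _ z.2, Sx.of ⟨(Cst.of (RP M) z.2).rep⁻¹ * z.2,
    Cst.of_eq.1 (Cst.of_rep (Cst.of (RP M) z.2))⟩ z.1)
  left_inv z := by
    obtain ⟨w, g, j⟩ := z
    have h1 : Cst.of (RP M) (w.rep * (g : M.G)) = w := by
      have h2 : Cst.of (RP M) w.rep = Cst.of (RP M) (w.rep * (g : M.G)) := by
        rw [Cst.of_eq, inv_mul_cancel_left]
        exact g.2
      rw [← h2, Cst.of_rep]
    refine Prod.ext h1 (Prod.ext (Subtype.ext ?_) rfl)
    change (Cst.of (RP M) (w.rep * (g : M.G))).rep⁻¹ * (w.rep * (g : M.G)) = (g : M.G)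
    rw [h1, inv_mul_cancel_left]
  right_inv z := by
    refine Prod.ext rfl ?_
    change (Cst.of (RP M) z.2).rep * ((Cst.of (RP M) z.2).rep⁻¹ * z.2) = z.2
    rw [mul_inv_cancel_left]

/-- the linear equivalence behind `psi` -/
private noncomputable def psiL (M : Model P r e) :
    (Cst (RP M) →₀ (Sx (RP M) r →₀ ℤ)) ≃ₗ[ℤ] (Fin r → (M.G →₀ ℤ)) :=
  (Finsupp.curryLinearEquiv ℤ).symm ≪≫ₗ Finsupp.domLCongr (psiE M) ≪≫ₗ
    Finsupp.curryLinearEquiv ℤ ≪≫ₗ Finsupp.linearEquivFunOnFinite ℤ (M.G →₀ ℤ) (Fin r)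

private theorem psi_eq (M : Model P r e) : psi M = (psiL M).toLinearMap := by
  refine Finsupp.lhom_ext' fun w => Finsupp.lhom_ext fun x a => ?_
  change psi M (Finsupp.single w (Finsupp.single x a)) =
    psiL M (Finsupp.single w (Finsupp.single x a))
  rw [psi_single]
  unfold psiL
  simp only [LinearEquiv.trans_apply]
  have h1 : (Finsupp.curryLinearEquiv ℤ).symm (Finsupp.single w (Finsupp.single x a)) =
      Finsupp.single (w, x) a := by
    exact Finsupp.uncurry_single w x a
  rw [h1, Finsupp.domLCongr_single]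
  have h2 : Finsupp.curryLinearEquiv ℤ (Finsupp.single (psiE M (w, x)) a) =
      (Finsupp.single (psiE M (w, x)).1 (Finsupp.single (psiE M (w, x)).2 a) :
        Fin r →₀ (M.G →₀ ℤ)) :=
    Finsupp.curry_single _ _
  rw [h2, Finsupp.linearEquivFunOnFinite_single]
  change a • (Pi.single x.ix (Finsupp.single (w.rep * (x.gr : M.G)) (1 : ℤ)) :
      Fin r → (M.G →₀ ℤ)) =
    (Pi.single x.ix (Finsupp.single (w.rep * (x.gr : M.G)) a) : Fin r → (M.G →₀ ℤ))
  rw [← Pi.single_smul, Finsupp.smul_single, smul_eq_mul, mul_one]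

theorem psi_inj (M : Model P r e) (b : Cst (RP M) →₀ (Sx (RP M) r →₀ ℤ)) (h : psi M b = 0) :
    b = 0 := by
  rw [psi_eq] at h
  exact (psiL M).map_eq_zero_iff.1 h

theorem psi_surj (M : Model P r e) (x : Fin r → (M.G →₀ ℤ)) : ∃ b, psi M b = x := by
  rw [psi_eq]
  exact (psiL M).surjective x

private theorem mulE_add (M : Model P r e) (x y : Fin r → (M.G →₀ ℤ)) (i : Fin r) :
    mulE M.ι e (x + y) i = mulE M.ι e x i + mulE M.ι e y i := by
  unfold mulE
  rw [← Finset.sum_add_distrib]
  refine Finset.sum_congr rfl fun j _ => ?_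
  rw [← Finset.sum_add_distrib]
  refine Finset.sum_congr rfl fun p _ => ?_
  rw [Pi.add_apply, Finsupp.mapDomain_add, smul_add]

private theorem mulE_zero (M : Model P r e) (i : Fin r) :
    mulE M.ι e (0 : Fin r → (M.G →₀ ℤ)) i = 0 := by
  unfold mulE
  refine Finset.sum_eq_zero fun j _ => Finset.sum_eq_zero fun p _ => ?_
  rw [Pi.zero_apply, Finsupp.mapDomain_zero, smul_zero]

theorem psi_te (M : Model P r e) (b : Cst (RP M) →₀ (Sx (RP M) r →₀ ℤ)) (i : Fin r) :
    psi M (Finsupp.mapRange.linearMap (Te M) b) i = mulE M.ι e (psi M b) i := by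
  induction b using Finsupp.induction_linear with
  | zero => rw [map_zero, map_zero, mulE_zero, Pi.zero_apply]
  | add a b ha hb => rw [map_add, map_add, map_add, mulE_add, Pi.add_apply, ha, hb]
  | single w c =>
    rw [Finsupp.mapRange.linearMap_apply, Finsupp.mapRange_single]
    induction c using Finsupp.induction_linear with
    | zero => rw [map_zero, Finsupp.single_zero, map_zero, mulE_zero, Pi.zero_apply]
    | add a b ha hb =>
      rw [map_add, Finsupp.single_add, Finsupp.single_add, map_add, map_add, mulE_add, Pi.add_apply, ha, hb]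
    | single x a =>
      rw [te_single, psi_single]
      have h1 : psi M (Finsupp.single w (a • ∑ l : Fin r, ∑ p : P,
          e x.ix l p • Finsupp.single (Sx.of (x.gr * rp M p) l) (1 : ℤ))) =
          a • ∑ l : Fin r, ∑ p : P, e x.ix l p •
            (Pi.single l (Finsupp.single (w.rep * (x.gr : M.G) * M.ι p) (1 : ℤ)) :
              Fin r → (M.G →₀ ℤ)) := by
        have h2 : ∀ d : Sx (RP M) r →₀ ℤ, psi M (Finsupp.single w d) =
            ((psi M) ∘ₗ (Finsupp.lsingle w)) d := fun d => rfl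
        rw [h2, map_zsmul, map_sum]
        refine congrArg (fun t => a • t) (Finset.sum_congr rfl fun l _ => ?_)
        rw [map_sum]
        refine Finset.sum_congr rfl fun p _ => ?_
        rw [map_zsmul, ← h2, psi_single, one_smul]
        refine congrArg (fun t => e x.ix l p • t) ?_
        have h3 : w.rep * (((Sx.of (x.gr * rp M p) l).gr : RP M) : M.G) =
            w.rep * (x.gr : M.G) * M.ι p := by
          rw [mul_assoc]
          rfl
        rw [h3]
        rfl
      rw [h1, Pi.smul_apply, Finset.sum_apply]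
      have h4 : ∑ l : Fin r, (∑ p : P, e x.ix l p •
            (Pi.single l (Finsupp.single (w.rep * (x.gr : M.G) * M.ι p) (1 : ℤ)) :
              Fin r → (M.G →₀ ℤ))) i =
          ∑ p : P, e x.ix i p • Finsupp.single (w.rep * (x.gr : M.G) * M.ι p) (1 : ℤ) := by
        rw [Finset.sum_eq_single i]
        · rw [Finset.sum_apply]
          refine Finset.sum_congr rfl fun p _ => ?_
          rw [Pi.smul_apply, Pi.single_eq_same]
        · intro l _ hl
          rw [Finset.sum_apply]
          refine Finset.sum_eq_zero fun p _ => ?_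
          rw [Pi.smul_apply, Pi.single_eq_of_ne (Ne.symm hl), smul_zero]
        · intro h5
          exact absurd (Finset.mem_univ i) h5
      rw [h4]
      unfold mulE
      rw [Finset.sum_eq_single x.ix]
      · rw [Finset.smul_sum]
        refine Finset.sum_congr rfl fun p _ => ?_
        rw [Pi.smul_apply, Pi.single_eq_same, Finsupp.mapDomain_smul, Finsupp.mapDomain_single,
          Int.cast_id, smul_comm]
      · intro l _ hl
        refine Finset.sum_eq_zero fun p _ => ?_
        rw [Pi.smul_apply, Pi.single_eq_of_ne hl, smul_zero, Finsupp.mapDomain_zero, smul_zero]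
      · intro h5
        exact absurd (Finset.mem_univ _) h5

theorem comb_lin (N : PreCub) {G : Type} [Group G] [∀ n, MulAction G (N.cub n)] {R : Type}
    [CommRing R] {n r : ℕ} (u : Fin r → (N.cub n →₀ R)) :
    ∃ C : (Fin r → (G →₀ R)) →ₗ[R] (N.cub n →₀ R), ∀ x, C x = N.comb u x := by
  refine ⟨∑ j : Fin r, (Finsupp.linearCombination R
    (fun g : G => Finsupp.mapDomain (fun c => g • c) (u j))) ∘ₗ LinearMap.proj j, fun x => ?_⟩
  rw [LinearMap.sum_apply]
  unfold PreCub.comb
  refine Finset.sum_congr rfl fun j _ => ?_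
  rw [LinearMap.comp_apply, LinearMap.proj_apply, Finsupp.linearCombination_apply]

theorem comb_psi (M : Model P r e) (u : Fin r → (M.N.cub 3 →₀ ℤ)) (w : Cst (RP M))
    (x : Sx (RP M) r) :
    M.N.comb u (psi M (Finsupp.single w (Finsupp.single x 1))) =
      Finsupp.mapDomain (fun c => (w.rep * (x.gr : M.G)) • c) (u x.ix) := by
  rw [psi_single, one_smul]
  unfold PreCub.comb
  rw [Finset.sum_eq_single x.ix]
  · rw [Pi.single_eq_same, Finsupp.sum_single_index, one_smul]
    rw [zero_smul]
  · intro l _ hl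
    rw [Pi.single_eq_of_ne hl, Finsupp.sum_zero_index]
  · intro h5
    exact absurd (Finset.mem_univ _) h5

end Pool.H93.FN
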