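import Pool.Agent.H93.FN.Ybb
import Pool.Agent.H93.FN.Chs
import Pool.Agent.H93.HM.Brg
import Pool.Agent.H93.HU.Fin

/-!
# [H93 FN FIN] The homology of the telescope and of the open model of a `Model`

PROOF of `c1_hom` (complete). `Fil (RY M) 2`: `hurewicz` (`p = 0`) with `h0`, `h1` and `acyc_of` (`p = 1`) from `ry_ne M 1`. `(M.hom ℤ).2.2`: `u`, `hu1`, `hu2`, `hu3`. `sφ j`: `loop_of` with `z = jm M 3 (u j)` (`jm_bd`, `hu1`), `x₀ = y0 M`. `K = RP M`. `A j = Te M (single (Sx.of 1 j) 1)`, `B j = single (Sx.of 1 j) 1 - A j`; `sp j`, `sq j`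
from `sph_comb`. `hA` of `wmap`: `TT = Te M` resp. `LinearMap.id - Te M`: `te_smul`, `x.gr • Sx.of 1 x.ix = x` (`mul_one`). `p`, `q`, `φ₀` the maps `weq` as continuous maps: `Wdg.weq_continuous fix _` (`fix = Wdg.smul_pt`, `fixY = ry_smul_y0 M`; see `typeFAR_of` in `H18/AR/Far.lean` for the instances:
`Wdg.wdg_csm`, `ContinuousConstSMul (RP M) (RY M)`, `Wdg.wdg_compact`, `Wdg.wdg_metrizable`). `hφ` of `Ybb.lean`: `weq_lch` (`mapC_gC`), the class of `sφ x.ix`, `dC_mapC`; `act (x.gr : M.G)` and `act x.gr` are the same map (`Subgroup.smul_def`, `ContinuousMap.ext`).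
Then `acyc_of` with `tel_acyc ℤ p q (Te M) (te_idem M he)`, `xc_acyc ℤ (ry_good M).lcs (ry_act M).2.1 p q φ₀ (Te M) .. (ry_ne M) (yb_sur ..) (yb_ker ..)`.
-/

set_option autoImplicit false

namespace Pool.H93.FN

open Pool.Agent.H4.CU Pool.Agent.H18.AR Pool.Agent.H59.FS Pool.H93.HM

variable {P : Type} [Group P] [Fintype P] {r : ℕ} {e : Fin r → Fin r → P → ℤ}

private theorem dmF {Z Z' : Type} [TopologicalSpace Z]
    [TopologicalSpace Z'] {n : ℕ} (f : C(Z, Z')) (x : Ch ℤ Z (n + 1)) :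
    dC ℤ Z' n (mapC ℤ (n + 1) f x) = mapC ℤ n f (dC ℤ Z n x) :=
  congrArg (fun g => g x) (dC_mapC (R := ℤ) (n := n) f)

private theorem fin_fil (M : Model P r e) (h0 : Pool.H93.HU.Fil (RY M) 0)
    (h1 : Pool.H93.HU.Fil (RY M) 1) : ∀ j < 3, Pool.H93.HU.Fil (RY M) j := by
  have h01 : ∀ j < 2, Pool.H93.HU.Fil (RY M) j := by
    intro j hj
    interval_cases j
    · exact h0
    · exact h1
  have hA : Pool.H93.HU.Acyc (RY M) 1 := acyc_of (p := 1) fun z hz => ry_ne M 1 (by omega) z hz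
  have h2 : Pool.H93.HU.Fil (RY M) 2 := Pool.H93.HU.hurewicz (p := 0) h01 hA
  intro j hj
  rcases Nat.lt_or_ge j 2 with hj2 | hj2
  · exact h01 j hj2
  · obtain rfl : j = 2 := by omega
    exact h2

private theorem fin_gr (M : Model P r e) (x : Sx (RP M) r) (a : ℤ) :
    Finsupp.mapDomain (fun y => x.gr • y) (Finsupp.single (Sx.of (1 : RP M) x.ix) a) =
      Finsupp.single x a := by
  rw [Finsupp.mapDomain_single, Sx.smul_of, mul_one]
  rfl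

private theorem fin_hA (M : Model P r e) (x : Sx (RP M) r) :
    Te M (Finsupp.single x 1) =
      Finsupp.mapDomain (fun y => x.gr • y) (Te M (Finsupp.single (Sx.of (1 : RP M) x.ix) 1)) := by
  rw [← te_smul, fin_gr]

private theorem fin_hB (M : Model P r e) (x : Sx (RP M) r) :
    (LinearMap.id - Te M : (Sx (RP M) r →₀ ℤ) →ₗ[ℤ] (Sx (RP M) r →₀ ℤ)) (Finsupp.single x 1) =
      Finsupp.mapDomain (fun y => x.gr • y) (Finsupp.single (Sx.of (1 : RP M) x.ix) 1 -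
        Te M (Finsupp.single (Sx.of (1 : RP M) x.ix) 1)) := by
  have h1 : ∀ c c' : Sx (RP M) r →₀ ℤ, Finsupp.mapDomain (fun y => x.gr • y) (c - c') =
      Finsupp.mapDomain (fun y => x.gr • y) c - Finsupp.mapDomain (fun y => x.gr • y) c' :=
    fun c c' => map_sub (Finsupp.mapDomain.addMonoidHom fun y : Sx (RP M) r => x.gr • y) c c'
  rw [h1, fin_gr, ← fin_hA, LinearMap.sub_apply, LinearMap.id_apply]

private theorem fin_phi (M : Model P r e) [ContinuousConstSMul (RP M) (RY M)]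
    {u : Fin r → (M.N.cub 3 →₀ ℤ)} (sφ : Fin r → GenLoop (Fin 3) (RY M) (y0 M))
    (hs : ∀ j, jm M 3 (u j) - gC ℤ ((sφ j).1 : Cb (RY M) 3) ∈ LinearMap.range (dC ℤ (RY M) 3))
    (φ₀ : C(LW (Sx (RP M) r) 3, RY M)) (hφ₀ : ∀ z, φ₀ z = Wdg.weq sφ z) (x : Sx (RP M) r) :
    mapC ℤ 3 φ₀ (gC ℤ (lch x)) - mapC ℤ 3 (act (x.gr : M.G)) (jm M 3 (u x.ix)) ∈
      LinearMap.range (dC ℤ (RY M) 3) := by
  have h1 := weq_lch (T := RY M) (t0 := y0 M) (fun a : RP M => ry_smul_y0 M a) sφ φ₀ hφ₀ x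
  have h2 : (act x.gr : C(RY M, RY M)) = act (x.gr : M.G) := ContinuousMap.ext fun y => rfl
  have h3 : mapC ℤ 3 φ₀ (gC ℤ (lch x)) =
      mapC ℤ 3 (act (x.gr : M.G)) (gC ℤ ((sφ x.ix).1 : Cb (RY M) 3)) := by
    rw [mapC_gC, mapC_gC, ← h2]
    exact congrArg (gC ℤ) h1
  obtain ⟨v, hv⟩ := hs x.ix
  refine ⟨mapC ℤ 4 (act (x.gr : M.G)) (-v), ?_⟩
  rw [dmF, map_neg, hv, neg_sub, map_sub, h3]

theorem c1_hom (M : Model P r e) (he : IsIdem e) (h0 : Pool.H93.HU.Fil (RY M) 0)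
    (h1 : Pool.H93.HU.Fil (RY M) 1) :
    ∃ (sp sq : Fin r → GenLoop (Fin 3) (Wdg (RP M) r 3) Wdg.pt)
      (sφ : Fin r → GenLoop (Fin 3) (RY M) (y0 M)),
      (∀ p, Pool.H93.HU.Acyc (Tel (Wdg.weq sp : Wdg (RP M) r 3 → Wdg (RP M) r 3)
        (Wdg.weq sq : Wdg (RP M) r 3 → Wdg (RP M) r 3)) (p + 1)) ∧
      ∀ p, Pool.H93.HU.Acyc (Xc (RP M) (Wdg.weq sp : Wdg (RP M) r 3 → Wdg (RP M) r 3)
        (Wdg.weq sq : Wdg (RP M) r 3 → Wdg (RP M) r 3)
        (Wdg.weq sφ : Wdg (RP M) r 3 → RY M)) (p + 1) := by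
  have hF := fin_fil M h0 h1
  obtain ⟨u, hu1, hu2, hu3⟩ := (M.hom ℤ).2.2
  choose sφ hsφ using fun j => loop_of hF (y0 M) (jm M 3 (u j)) (by rw [← jm_bd, hu1, map_zero])
  choose sp hsp using fun j : Fin r => sph_comb (K := RP M)
    (Te M (Finsupp.single (Sx.of (1 : RP M) j) 1))
  choose sq hsq using fun j : Fin r => sph_comb (K := RP M)
    (Finsupp.single (Sx.of (1 : RP M) j) 1 - Te M (Finsupp.single (Sx.of (1 : RP M) j) 1))
  have i1 : ContinuousConstSMul (RP M) (RY M) :=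
    ⟨fun a => (ry_act M).1.continuous_const_smul (a : M.G)⟩
  have i2 : CompactSpace (Wdg (RP M) r 3) := Wdg.wdg_compact
  have i3 : TopologicalSpace.MetrizableSpace (Wdg (RP M) r 3) := Wdg.wdg_metrizable
  have i4 : ContinuousConstSMul (RP M) (Wdg (RP M) r 3) := Wdg.wdg_csm
  have i5 : CompactSpace (LW (Sx (RP M) r) 3) := i2
  have i6 : TopologicalSpace.MetrizableSpace (LW (Sx (RP M) r) 3) := i3
  have fix : ∀ a : RP M, a • (Wdg.pt : Wdg (RP M) r 3) = Wdg.pt := fun a => Wdg.smul_pt a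
  have fixY : ∀ a : RP M, a • y0 M = y0 M := fun a => ry_smul_y0 M a
  let p : C(LW (Sx (RP M) r) 3, LW (Sx (RP M) r) 3) :=
    (⟨Wdg.weq sp, Wdg.weq_continuous fix sp⟩ : C(Wdg (RP M) r 3, Wdg (RP M) r 3))
  let q : C(LW (Sx (RP M) r) 3, LW (Sx (RP M) r) 3) :=
    (⟨Wdg.weq sq, Wdg.weq_continuous fix sq⟩ : C(Wdg (RP M) r 3, Wdg (RP M) r 3))
  let φ₀ : C(LW (Sx (RP M) r) 3, RY M) :=
    (⟨Wdg.weq sφ, Wdg.weq_continuous fixY sφ⟩ : C(Wdg (RP M) r 3, RY M))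
  have hp : ∀ c, mapC ℤ 3 p (Lam ℤ (Sx (RP M) r) 3 c) - Lam ℤ (Sx (RP M) r) 3 (Te M c) ∈
      LinearMap.range (dC ℤ (LW (Sx (RP M) r) 3) 3) :=
    fun c => wmap (K := RP M) (fun j => Te M (Finsupp.single (Sx.of (1 : RP M) j) 1)) (Te M)
      (fin_hA M) sp hsp p (fun _ => rfl) c
  have hq : ∀ c, mapC ℤ 3 q (Lam ℤ (Sx (RP M) r) 3 c) - Lam ℤ (Sx (RP M) r) 3 (c - Te M c) ∈
      LinearMap.range (dC ℤ (LW (Sx (RP M) r) 3) 3) :=
    fun c => wmap (K := RP M) (fun j => Finsupp.single (Sx.of (1 : RP M) j) 1 -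
      Te M (Finsupp.single (Sx.of (1 : RP M) j) 1)) (LinearMap.id - Te M)
      (fin_hB M) sq hsq q (fun _ => rfl) c
  have hY : LCS (RY M) := (ry_good M).lcs
  have hφ := fin_phi M sφ hsφ φ₀ fun _ => rfl
  refine ⟨sp, sq, sφ, fun n => ?_, fun n => ?_⟩
  · exact acyc_of (X := Tel p q) (p := n + 1)
      fun z hz => tel_acyc ℤ p q (Te M) (te_idem M he) hp hq n z hz
  · exact acyc_of (X := Xc (RP M) p q φ₀) (p := n + 1)
      fun z hz => xc_acyc ℤ hY (ry_act M).2.1 p q φ₀ (Te M) (te_idem M he) hp hq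
        (ry_ne M) (yb_sur M φ₀ hφ hu2) (yb_ker M φ₀ hφ hu1 hu3) n z hz

end Pool.H93.FN
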