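import Pool.Agent.H18.AR.Far
import Pool.Agent.H93.RC.Rce

/-!
# [H93 FN JMM] The homology of `RY M`

`jm M n`: the map `jc` for the model, into the chains of `RY M`.

PROOFS (complete). `hG`: `Re.good_stage (Re.cub_countable M.fin) M.locFin`, `hL = M.locFin`, `hC = Re.cub_countable M.fin`, `K = 4`, `hK = M.dim`. `jm_bd = jc_bd`, `jm_sur = ry_sur`, `jm_inj = ry_inj` (`RY M` is `st M.N 4` by `rfl`), `jm_act = jc_act` with `f = act g` (the action of `RY M`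
is `(Re.act M.isAct 4).act`, `rfl`). `ry_ne`: `jm_sur`, then `(M.hom ℤ).2.1 n` and `jm_bd`.
-/

set_option autoImplicit false

namespace Pool.H93.FN

open Pool.Agent.H4.CU Pool.Agent.H18.AR Pool.Agent.H59.FS Pool.H93.RC

variable {P : Type} [Group P] [Fintype P] {r : ℕ} {e : Fin r → Fin r → P → ℤ}

instance ryCsm (M : Model P r e) : ContinuousConstSMul M.G (RY M) := (ry_act M).1

/-- from the cellular chains of the model to the singular chains of the realisation -/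
noncomputable def jm (M : Model P r e) (n : ℕ) : (M.N.cub n →₀ ℤ) →ₗ[ℤ] Ch ℤ (RY M) n :=
  jc M.N ℤ 4 n

private theorem jm_good (M : Model P r e) : ∀ k, Re.Good M.N (Re.stage M.N k) :=
  Re.good_stage (Re.cub_countable M.fin) M.locFin

theorem jm_bd (M : Model P r e) (n : ℕ) (x : M.N.cub (n + 1) →₀ ℤ) :
    jm M n (M.N.bd ℤ n x) = dC ℤ (RY M) n (jm M (n + 1) x) :=
  jc_bd (jm_good M) ℤ 4 M.dim n x

theorem jm_sur (M : Model P r e) (n : ℕ) (z : Ch ℤ (RY M) (n + 1)) (hz : dC ℤ (RY M) n z = 0) :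
    ∃ x : M.N.cub (n + 1) →₀ ℤ, M.N.bd ℤ n x = 0 ∧
      z - jm M (n + 1) x ∈ LinearMap.range (dC ℤ (RY M) (n + 1)) :=
  ry_sur (jm_good M) M.locFin (Re.cub_countable M.fin) ℤ 4 M.dim n z hz

theorem jm_inj (M : Model P r e) (n : ℕ) (x : M.N.cub (n + 1) →₀ ℤ) (hx : M.N.bd ℤ n x = 0)
    (h : jm M (n + 1) x ∈ LinearMap.range (dC ℤ (RY M) (n + 1))) :
    x ∈ LinearMap.range (M.N.bd ℤ (n + 1)) :=
  ry_inj (jm_good M) M.locFin (Re.cub_countable M.fin) ℤ 4 M.dim n x hx h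

theorem jm_act (M : Model P r e) (n : ℕ) (g : M.G) (x : M.N.cub n →₀ ℤ) :
    jm M n (Finsupp.mapDomain (fun c => g • c) x) = mapC ℤ n (act g) (jm M n x) := by
  obtain ⟨f, hf⟩ : ∃ f : C(RY M, RY M), f = act g := ⟨_, rfl⟩
  rw [← hf]
  exact jc_act ℤ M.isAct 4 n g f (fun z => by rw [hf]; rfl) x

theorem ry_ne (M : Model P r e) (n : ℕ) (hn : n + 1 ≠ 3) (z : Ch ℤ (RY M) (n + 1))
    (hz : dC ℤ (RY M) n z = 0) : z ∈ LinearMap.range (dC ℤ (RY M) (n + 1)) := by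
  obtain ⟨x, hx, h⟩ := jm_sur M n z hz
  obtain ⟨y, hy⟩ := (M.hom ℤ).2.1 n (by omega) x hx
  have h1 : jm M (n + 1) x ∈ LinearMap.range (dC ℤ (RY M) (n + 1)) := by
    rw [← hy, jm_bd]
    exact ⟨_, rfl⟩
  have h2 := Submodule.add_mem _ h h1
  rwa [sub_add_cancel] at h2

end Pool.H93.FN
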