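import Pool.Agent.H93.HM.Dis
import Pool.Agent.H4.CU.DD

/-!
# [H93 FN LSM] Disjoint unions of copies of a space

`LSum i`: `E` is the disjoint union of the copies `i d : L → E` of `L`, `d : D`. `asm R i n c = Σ_d (i d)_* (c d)`.

PROOFS (complete). `lsum_inD`: `f = id`. `lsum_prod`: `f' (d', x) = ((d', (f x).1), (f x).2)`. `asm_d`: `Finsupp.lhom_ext'`, `dC_mapC`. Let `f` be the inverse: `mapC f (asm i n c) = ofD c` (`Finsupp.lhom_ext'`, `mapC_comp`, `f.comp (i d) = inD d`), and
`asm i n (toD (mapC f z)) = z` (`ch_ext`, `toD_gC`: for a cube `σ` of `E`: `i d ∘ snd ∘ f ∘ σ = σ` with `d = (f (σ 0)).1`, since `(f (σ x)).1 = (f (σ 0)).1`: connectedness; or: `ofD (toD (mapC f z)) = mapC f z` (`ofD_toD`) and `mapC g (ofD c) = asm c`, `g (d, c) = i d c`,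
`g ∘ f = id`, `g` is continuous since `D` is discrete). `asm_surj`: `c = toD (mapC f z)`. `asm_inj`: `ofD c = 0`, `toD_ofD`. `asm_cyc`: `asm_d`, `asm_inj`. `asm_bd`: `asm c = dC w`, `w = asm c'`, `asm (c - mapRange dC c') = 0`. `asm_of_bd`: choose `w d` for `d ∈ c.support`
(`Finsupp.onFinset` or `Finset.sum`): `asm c = Σ_{d ∈ support} mapC (i d) (dC (w d)) = dC (Σ mapC (i d) (w d))`; or `Submodule.sum_mem`.
-/

set_option autoImplicit false

namespace Pool.H93.FN

open Pool.Agent.H4.CU Pool.H93.HM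

variable {D L E : Type} [TopologicalSpace D] [DiscreteTopology D] [TopologicalSpace L]
  [TopologicalSpace E]

/-- `E` is the disjoint union of the copies `i d` of `L` -/
def LSum (i : D → C(L, E)) : Prop :=
  ∃ f : C(E, D × L), (∀ d c, f (i d c) = (d, c)) ∧ ∀ x, i (f x).1 (f x).2 = x

theorem lsum_inD : LSum (fun d : D => (inD d : C(L, D × L))) :=
  ⟨ContinuousMap.id _, fun _ _ => rfl, fun _ => rfl⟩

theorem lsum_prod {D' : Type} [TopologicalSpace D'] [DiscreteTopology D'] (i : D → C(L, E))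
    (h : LSum i) :
    LSum (fun d : D' × D => (inD d.1 : C(E, D' × E)).comp (i d.2)) := by
  obtain ⟨f, h1, h2⟩ := h
  refine ⟨⟨fun p => ((p.1, (f p.2).1), (f p.2).2), by fun_prop⟩, ?_, ?_⟩
  · rintro ⟨d', d⟩ c
    show ((d', (f (i d c)).1), (f (i d c)).2) = ((d', d), c)
    rw [h1]
  · rintro ⟨d', x⟩
    show (d', i (f x).1 (f x).2) = (d', x)
    rw [h2]

variable (R : Type) [CommRing R] {i : D → C(L, E)}

/-- the chain with the components `c d` -/
noncomputable def asm (i : D → C(L, E)) (n : ℕ) : (D →₀ Ch R L n) →ₗ[R] Ch R E n :=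
  Finsupp.lsum R fun d => mapC R n (i d)

omit [TopologicalSpace D] [DiscreteTopology D] in
private theorem asm_single (i : D → C(L, E)) (n : ℕ) (d : D) (y : Ch R L n) :
    asm R i n (Finsupp.single d y) = mapC R n (i d) y := by
  unfold asm
  rw [Finsupp.lsum_single]

theorem asm_d (i : D → C(L, E)) (n : ℕ) (c : D →₀ Ch R L (n + 1)) :
    dC R E n (asm R i (n + 1) c) = asm R i n (Finsupp.mapRange.linearMap (dC R L n) c) := by
  induction c using Finsupp.induction_linear with
  | zero => rw [map_zero, map_zero, map_zero, map_zero]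
  | add x y hx hy => rw [map_add, map_add, hx, hy, map_add, map_add]
  | single d y =>
    rw [Finsupp.mapRange.linearMap_apply, Finsupp.mapRange_single, asm_single, asm_single]
    exact congrArg (fun g => g y) (dC_mapC (R := R) (n := n) (i d))

/-- the glued map -/
private def glm (i : D → C(L, E)) : C(D × L, E) :=
  ⟨fun p => i p.1 p.2, continuous_prod_of_discrete_left.2 fun d => (i d).continuous⟩

private theorem asm_glm (i : D → C(L, E)) (n : ℕ) (c : D →₀ Ch R L n) :
    mapC R n (glm i) (ofD R n c) = asm R i n c := by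
  induction c using Finsupp.induction_linear with
  | zero => rw [map_zero, map_zero, map_zero]
  | add x y hx hy => rw [map_add, map_add, hx, hy, map_add]
  | single d y =>
    rw [asm_single]
    unfold ofD
    rw [Finsupp.lsum_single]
    exact congrArg (fun g => g y) (mapC_comp (R := R) (n := n) (inD d : C(L, D × L)) (glm i)).symm

theorem asm_surj (h : LSum i) (n : ℕ) (z : Ch R E n) : ∃ c, asm R i n c = z := by
  obtain ⟨f, h1, h2⟩ := h
  refine ⟨toD R n (mapC R n f z), ?_⟩
  rw [← asm_glm, ofD_toD]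
  have h3 : (glm i).comp f = ContinuousMap.id E := ContinuousMap.ext fun x => h2 x
  have h4 := congrArg (fun g => g z) (mapC_comp (R := R) (n := n) f (glm i))
  rw [h3, mapC_id] at h4
  exact h4.symm

theorem asm_inj (h : LSum i) (n : ℕ) (c : D →₀ Ch R L n) (hc : asm R i n c = 0) : c = 0 := by
  obtain ⟨f, h1, h2⟩ := h
  have h3 : f.comp (glm i) = ContinuousMap.id (D × L) := ContinuousMap.ext fun x => h1 x.1 x.2
  have h4 := congrArg (fun g => g (ofD R n c)) (mapC_comp (R := R) (n := n) (glm i) f)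
  rw [h3, mapC_id] at h4
  simp only [LinearMap.id_apply, LinearMap.comp_apply] at h4
  rw [asm_glm, hc, map_zero] at h4
  rw [← toD_ofD R n c, h4, map_zero]

theorem asm_cyc (h : LSum i) (n : ℕ) (c : D →₀ Ch R L (n + 1))
    (hc : dC R E n (asm R i (n + 1) c) = 0) (d : D) : dC R L n (c d) = 0 := by
  rw [asm_d] at hc
  have h1 := asm_inj R h n _ hc
  have h2 := DFunLike.congr_fun h1 d
  rw [Finsupp.mapRange.linearMap_apply, Finsupp.mapRange_apply] at h2
  exact h2

theorem asm_bd (h : LSum i) (n : ℕ) (c : D →₀ Ch R L n)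
    (hc : asm R i n c ∈ LinearMap.range (dC R E n)) (d : D) : c d ∈ LinearMap.range (dC R L n) := by
  obtain ⟨w, hw⟩ := hc
  obtain ⟨c', rfl⟩ := asm_surj R h (n + 1) w
  rw [asm_d] at hw
  have h1 := asm_inj R h n (Finsupp.mapRange.linearMap (dC R L n) c' - c)
    (by rw [map_sub, hw, sub_self])
  have h2 := DFunLike.congr_fun (sub_eq_zero.1 h1) d
  rw [Finsupp.mapRange.linearMap_apply, Finsupp.mapRange_apply] at h2
  exact ⟨c' d, h2⟩

theorem asm_of_bd (i : D → C(L, E)) (n : ℕ) (c : D →₀ Ch R L n)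
    (hc : ∀ d, c d ∈ LinearMap.range (dC R L n)) : asm R i n c ∈ LinearMap.range (dC R E n) := by
  unfold asm
  rw [Finsupp.lsum_apply]
  refine Submodule.sum_mem _ fun d _ => ?_
  obtain ⟨w, hw⟩ := hc d
  refine ⟨mapC R (n + 1) (i d) w, ?_⟩
  rw [← hw]
  exact congrArg (fun g => g w) (dC_mapC (R := R) (n := n) (i d))

end Pool.H93.FN
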