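import Pool.Agent.H93.FN.Fin
import Pool.Agent.H18.VK.AM
import Pool.Agent.H18.VK.AH
import Pool.Agent.H18.VK.AJ

/-!
# A group with a `Model` is of type `F*_AR` (MP_5c3080_gt)
-/

set_option autoImplicit false

namespace Pool.H93.FN

open Pool.Agent.H4.CU Pool.Agent.H18.AR Pool.Agent.H59.FS Pool.H93.HM Pool.Agent.H18.VK

variable {P : Type} [Group P] [Fintype P] {r : ℕ} {e : Fin r → Fin r → P → ℤ}

theorem typeFAR (M : Model P r e) (he : IsIdem e) : TypeFAR M.G := by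
  have := (ry_act M).1
  have : ContinuousConstSMul (RP M) (RY M) :=
    ⟨fun a => (ry_act M).1.continuous_const_smul (a : M.G)⟩
  have hC := Re.cub_countable M.fin
  have hS : Pool.H93.VK.SC1 (RY M) := stage_sc1 hC M.locFin M.sc 2
  have h0 : Pool.H93.HU.Fil (RY M) 0 := stage_fil0 M.conn 3
  have h1 : Pool.H93.HU.Fil (RY M) 1 := stage_fil1 hC M.locFin M.sc M.conn 2
  obtain ⟨sp, sq, sφ, hT, hX⟩ := c1_hom M he h0 h1
  have : CompactSpace (Wdg (RP M) r 3) := Wdg.wdg_compact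
  have : TopologicalSpace.MetrizableSpace (Wdg (RP M) r 3) := Wdg.wdg_metrizable
  have : ContinuousConstSMul (RP M) (Wdg (RP M) r 3) := Wdg.wdg_csm
  have : Nonempty (Wdg (RP M) r 3) := ⟨Wdg.pt⟩
  have fix : ∀ a : RP M, a • (Wdg.pt : Wdg (RP M) r 3) = Wdg.pt := fun a => Wdg.smul_pt a
  have fixY : ∀ a : RP M, a • y0 M = y0 M := fun a => ry_smul_y0 M a
  have w0 : Pool.H93.HU.Fil (Wdg (RP M) r 3) 0 := wdg_fil0 (RP M) r 2
  have wS : Pool.H93.VK.SC1 (Wdg (RP M) r 3) := wdg_sc1 (RP M) r 1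
  have cp := Wdg.weq_continuous fix sp
  have cq := Wdg.weq_continuous fix sq
  have cφ := Wdg.weq_continuous fixY sφ
  refine typeFAR_of M sp sq sφ ⟨⟨HC.vt (0, Wdg.pt)⟩, ?_⟩ ⟨⟨HC.vt (Sum.inl (y0 M))⟩, ?_⟩
  · exact Pool.H93.HU.fil_all (tel_fil0 cp cq w0) (tel_fil1 cp cq w0 wS) hT
  · exact Pool.H93.HU.fil_all
      (xc_fil0 (ry_good M).lcs (ry_act M).2.1 cp cq cφ w0 h0)
      (xc_fil1 (ry_good M).lcs (ry_act M).2.1 cp cq cφ w0 h0 wS hS) hX

end Pool.H93.FN
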