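import Pool.Agent.H4.CU.ICJ
import Pool.Agent.H4.CU.DD

/-!
# [H93 FN SMT] Chains on a disjoint union of two spaces

PROOFS (complete). A cube `σ : C(Qb n, Y ⊕ W)` has values in `Y` or in `W` (`Qb n` is connected; `Set.range Sum.inl` is clopen: `isClopen_range_inl`, `isClopen_iff` for the preimage), so it is `inlC.comp τ` or `inrC.comp τ` (`Topology.IsOpenEmbedding.inl`; `τ` continuous by the embedding).
`sum_rep`: span induction (`ch_span`). For `sum_inj` let `πl : Ch R (Y ⊕ W) n → Ch R Y n`, `gC σ ↦ gC τ` if `σ = inlC.comp τ`, else `0` (`liftC`; `τ` is unique; degenerate if `σ` is): `πl (mapC inlC u) = u`, `πl (mapC inrC v) = 0`; the same for `W`. (If `Y` is nonempty one could use a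
retraction, but `Y`, `W` may be empty.) `sum_cyc`: `dC (mapC inlC u + mapC inrC v) = mapC inlC (dC u) + mapC inrC (dC v)` (`dC_mapC`), `sum_inj`. `sum_bd`: → `= dC w`, `w = mapC inlC a + mapC inrC b` (`sum_rep`), `sum_inj` for `u - dC a`, `v - dC b`; ← `map_add`.
-/

set_option autoImplicit false

namespace Pool.H93.FN

open Pool.Agent.H4.CU

variable (R : Type) [CommRing R] {Y W : Type} [TopologicalSpace Y] [TopologicalSpace W]

/-- the left inclusion -/
def inlC : C(Y, Y ⊕ W) := ⟨Sum.inl, continuous_inl⟩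

/-- the right inclusion -/
def inrC : C(W, Y ⊕ W) := ⟨Sum.inr, continuous_inr⟩

private theorem lift_of {Z Y' : Type} [TopologicalSpace Z] [TopologicalSpace Y'] {n : ℕ}
    (j : C(Y', Z)) (hj : Topology.IsEmbedding j) (σ : Cb Z n)
    (h : ∀ x, σ x ∈ Set.range j) : ∃ τ : Cb Y' n, σ = j.comp τ := by
  choose τ hτ using h
  refine ⟨⟨τ, ?_⟩, ?_⟩
  · rw [hj.continuous_iff]
    have e : (j : Y' → Z) ∘ τ = σ := funext hτ
    rw [e]
    exact σ.continuous
  · ext x
    exact (hτ x).symm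

private theorem cube_cases {n : ℕ} (σ : Cb (Y ⊕ W) n) :
    (∃ τ : Cb Y n, σ = inlC.comp τ) ∨ ∃ τ : Cb W n, σ = inrC.comp τ := by
  have h1 : IsClopen (σ ⁻¹' (Set.range (Sum.inl : Y → Y ⊕ W))) :=
    (isClopen_range_inl).preimage σ.continuous
  rcases isClopen_iff.1 h1 with h2 | h2
  · right
    refine lift_of inrC Topology.IsEmbedding.inr σ fun x => ?_
    have h3 : x ∉ σ ⁻¹' (Set.range (Sum.inl : Y → Y ⊕ W)) := by
      rw [h2]
      exact Set.notMem_empty x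
    rcases hx : σ x with y | w
    · exact absurd ⟨y, hx.symm⟩ h3
    · exact ⟨w, rfl⟩
  · left
    refine lift_of inlC Topology.IsEmbedding.inl σ fun x => ?_
    have h3 : x ∈ σ ⁻¹' (Set.range (Sum.inl : Y → Y ⊕ W)) := by
      rw [h2]
      exact Set.mem_univ x
    exact h3

private theorem ret {Z Y' : Type} [TopologicalSpace Z] [TopologicalSpace Y'] (j : C(Y', Z))
    (hj : Function.Injective j) (n : ℕ) : ∃ π : Ch R Z n →ₗ[R] Ch R Y' n,
      (∀ τ : Cb Y' n, π (gC R (j.comp τ)) = gC R τ) ∧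
        ∀ σ : Cb Z n, (¬ ∃ τ : Cb Y' n, σ = j.comp τ) → π (gC R σ) = 0 := by
  classical
  refine ⟨liftC (fun σ => if h : ∃ τ : Cb Y' n, σ = j.comp τ then gC R h.choose else 0) ?_,
    fun τ => ?_, fun σ h => ?_⟩
  · intro σ hσ
    by_cases h : ∃ τ : Cb Y' n, σ = j.comp τ
    · rw [dif_pos h]
      obtain ⟨i, hi⟩ := hσ
      refine gC_deg R ⟨i, fun x t => hj ?_⟩
      have h1 := hi x t
      rw [h.choose_spec] at h1
      exact h1
    · rw [dif_neg h]
  · rw [liftC_gC]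
    have h : ∃ τ' : Cb Y' n, j.comp τ = j.comp τ' := ⟨τ, rfl⟩
    rw [dif_pos h]
    congr 1
    ext x
    have h1 : (j.comp τ) x = (j.comp h.choose) x := by rw [← h.choose_spec]
    exact (hj h1).symm
  · rw [liftC_gC, dif_neg h]

theorem sum_rep (n : ℕ) (z : Ch R (Y ⊕ W) n) :
    ∃ (u : Ch R Y n) (v : Ch R W n), z = mapC R n inlC u + mapC R n inrC v := by
  have h : LinearMap.range ((mapC R n (inlC : C(Y, Y ⊕ W))).coprod (mapC R n inrC)) = ⊤ := by
    rw [eq_top_iff, ← ch_span, Submodule.span_le]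
    rintro c ⟨σ, rfl⟩
    rcases cube_cases σ with ⟨τ, rfl⟩ | ⟨τ, rfl⟩
    · refine ⟨(gC R τ, 0), ?_⟩
      rw [LinearMap.coprod_apply, map_zero, add_zero, mapC_gC]
    · refine ⟨(0, gC R τ), ?_⟩
      rw [LinearMap.coprod_apply, map_zero, zero_add, mapC_gC]
  have hz : z ∈ LinearMap.range ((mapC R n (inlC : C(Y, Y ⊕ W))).coprod (mapC R n inrC)) := by
    rw [h]
    exact Submodule.mem_top
  obtain ⟨⟨u, v⟩, huv⟩ := hz
  exact ⟨u, v, by rw [← huv, LinearMap.coprod_apply]⟩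

theorem sum_inj (n : ℕ) (u : Ch R Y n) (v : Ch R W n)
    (h : mapC R n (inlC : C(Y, Y ⊕ W)) u + mapC R n inrC v = 0) : u = 0 ∧ v = 0 := by
  obtain ⟨πl, hl1, hl2⟩ := ret R (inlC : C(Y, Y ⊕ W)) Sum.inl_injective n
  obtain ⟨πr, hr1, hr2⟩ := ret R (inrC : C(W, Y ⊕ W)) Sum.inr_injective n
  have e1 : πl ∘ₗ mapC R n inlC = LinearMap.id := ch_ext fun σ => by
    rw [LinearMap.comp_apply, mapC_gC, hl1, LinearMap.id_apply]
  have e2 : πl ∘ₗ mapC R n inrC = 0 := ch_ext fun σ => by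
    rw [LinearMap.comp_apply, mapC_gC, LinearMap.zero_apply]
    refine hl2 _ ?_
    rintro ⟨τ, hτ⟩
    have h1 := congrArg (fun f : Cb (Y ⊕ W) n => f fun _ => 0) hτ
    exact Sum.inr_ne_inl h1
  have e3 : πr ∘ₗ mapC R n inrC = LinearMap.id := ch_ext fun σ => by
    rw [LinearMap.comp_apply, mapC_gC, hr1, LinearMap.id_apply]
  have e4 : πr ∘ₗ mapC R n inlC = 0 := ch_ext fun σ => by
    rw [LinearMap.comp_apply, mapC_gC, LinearMap.zero_apply]
    refine hr2 _ ?_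
    rintro ⟨τ, hτ⟩
    have h1 := congrArg (fun f : Cb (Y ⊕ W) n => f fun _ => 0) hτ
    exact Sum.inl_ne_inr h1
  constructor
  · have h1 := congrArg πl h
    rw [map_add, map_zero] at h1
    have h2 : πl (mapC R n inlC u) = u := congrArg (fun f => f u) e1
    have h3 : πl (mapC R n inrC v) = 0 := congrArg (fun f => f v) e2
    rwa [h2, h3, add_zero] at h1
  · have h1 := congrArg πr h
    rw [map_add, map_zero] at h1
    have h2 : πr (mapC R n inlC u) = 0 := congrArg (fun f => f u) e4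
    have h3 : πr (mapC R n inrC v) = v := congrArg (fun f => f v) e3
    rwa [h2, h3, zero_add] at h1

private theorem sum_d (n : ℕ) (u : Ch R Y (n + 1)) (v : Ch R W (n + 1)) :
    dC R (Y ⊕ W) n (mapC R (n + 1) inlC u + mapC R (n + 1) inrC v) =
      mapC R n inlC (dC R Y n u) + mapC R n inrC (dC R W n v) := by
  rw [map_add]
  have h1 := congrArg (fun f => f u) (dC_mapC (R := R) (n := n) (inlC : C(Y, Y ⊕ W)))
  have h2 := congrArg (fun f => f v) (dC_mapC (R := R) (n := n) (inrC : C(W, Y ⊕ W)))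
  exact congrArg₂ (· + ·) h1 h2

theorem sum_cyc (n : ℕ) (u : Ch R Y (n + 1)) (v : Ch R W (n + 1))
    (h : dC R (Y ⊕ W) n (mapC R (n + 1) inlC u + mapC R (n + 1) inrC v) = 0) :
    dC R Y n u = 0 ∧ dC R W n v = 0 := by
  rw [sum_d] at h
  exact sum_inj R n _ _ h

theorem sum_bd (n : ℕ) (u : Ch R Y n) (v : Ch R W n) :
    mapC R n (inlC : C(Y, Y ⊕ W)) u + mapC R n inrC v ∈ LinearMap.range (dC R (Y ⊕ W) n) ↔
      u ∈ LinearMap.range (dC R Y n) ∧ v ∈ LinearMap.range (dC R W n) := by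
  constructor
  · rintro ⟨w, hw⟩
    obtain ⟨a, b, rfl⟩ := sum_rep R (n + 1) w
    rw [sum_d] at hw
    have h1 : mapC R n (inlC : C(Y, Y ⊕ W)) (u - dC R Y n a) +
        mapC R n inrC (v - dC R W n b) = 0 := by
      rw [map_sub, map_sub, sub_add_sub_comm, ← hw, sub_self]
    obtain ⟨h2, h3⟩ := sum_inj R n _ _ h1
    exact ⟨⟨a, (sub_eq_zero.1 h2).symm⟩, ⟨b, (sub_eq_zero.1 h3).symm⟩⟩
  · rintro ⟨⟨a, rfl⟩, ⟨b, rfl⟩⟩
    exact ⟨mapC R (n + 1) inlC a + mapC R (n + 1) inrC b, sum_d R n a b⟩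

end Pool.H93.FN
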