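import Pool.Agent.H93.FN.Lsb
import Pool.Agent.H93.HM.Hch
import Pool.Agent.H18.AR.TelT

/-!
# [H93 FN TLH] The homology of the telescope

`L = LW F 3`, `p`, `q : L → L` with `p_* = T`, `q_* = 1 - T` on `H_3`, `T T = T`. Then `H_n (Tel p q) = 0` for `n ≥ 2`.

PROOF (complete). `hc_acyc` with `V = E = ℤ × L`, `d₀ = telD0 q`, `d₁ = telD1 p` as continuous maps (`telD0_proper`, `telD1_proper`, `lcs_prod lcs_discrete lcs_compact`). `i d = inD d`, `lsum_inD`. `d₁ ∘ inD m = inD m ∘ p`, `d₀ ∘ inD m = inD (m - 1) ∘ q` (`rfl` or `ext`).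
KEY: for `c : ℤ →₀ (F →₀ R)`: `mapC d₁ (LamE i c) - LamE i (δ₁ c) ∈ range`, `mapC d₀ (LamE i c) - LamE i (δ₀ c) ∈ range`, where `δ₁ = Finsupp.lsum R (fun m => Finsupp.lsingle m ∘ₗ T)`, `δ₀ = Finsupp.lsum R (fun m => Finsupp.lsingle (m - 1) ∘ₗ (LinearMap.id - T))`
(`Finsupp` induction: for `single m y`: `mapC d₁ (mapC (inD m) (Lam y)) - mapC (inD m) (Lam (T y)) = mapC (inD m) (mapC p (Lam y) - Lam (T y))`, `dC_mapC`). `δ = δ₁ - δ₀`, `σ = Finsupp.lsum R (fun m => lsingle m ∘ₗ T - lsingle (m + 1) ∘ₗ (id - T))`.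
`δ (σ c) = c`, `σ (δ c) = c` (`Finsupp.induction_linear`; for `single m y`: `T (T y) = T y`, so `T (y - T y) = 0`, `T y + (y - T y) = y`; the terms at `m ± 1` vanish).
hs, `n + 2 ≠ 3`: `v` is a boundary (`ls_ne`), `e = 0`. hs, `n = 1`: `v - LamE i c ∈ range` (`ls_eq`), `e = LamE i (σ c)` (`lame_cyc`). hi, `n + 1 ≠ 3`: `ls_ne`. hi, `n = 2`: `e - LamE i c ∈ range`, then `LamE i (δ c) ∈ range`, `ls_inj`: `δ c = 0`, `c = σ (δ c) = 0`, so `e ∈ range`.
-/

set_option autoImplicit false

namespace Pool.H93.FN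

open Pool.Agent.H4.CU Pool.Agent.H18.AR Pool.H93.HM

section alg

variable {R : Type} [CommRing R] {M : Type} [AddCommGroup M] [Module R M] (T : M →ₗ[R] M)

/-- the map `d₁` on the combinations -/
private noncomputable def al1 : (ℤ →₀ M) →ₗ[R] (ℤ →₀ M) :=
  Finsupp.lsum R fun m => Finsupp.lsingle m ∘ₗ T

/-- the map `d₀` on the combinations -/
private noncomputable def al0 : (ℤ →₀ M) →ₗ[R] (ℤ →₀ M) :=
  Finsupp.lsum R fun m => Finsupp.lsingle (m - 1) ∘ₗ (LinearMap.id - T)

/-- the inverse of `al1 - al0` -/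
private noncomputable def als : (ℤ →₀ M) →ₗ[R] (ℤ →₀ M) :=
  Finsupp.lsum R fun m => Finsupp.lsingle m ∘ₗ T - Finsupp.lsingle (m + 1) ∘ₗ (LinearMap.id - T)

private theorem al1_s (m : ℤ) (y : M) : al1 T (Finsupp.single m y) = Finsupp.single m (T y) := by
  unfold al1
  rw [Finsupp.lsum_single]
  rfl

private theorem al0_s (m : ℤ) (y : M) : al0 T (Finsupp.single m y) = Finsupp.single (m - 1) (y - T y) := by
  unfold al0
  rw [Finsupp.lsum_single]
  rfl

private theorem als_s (m : ℤ) (y : M) :
    als T (Finsupp.single m y) = Finsupp.single m (T y) - Finsupp.single (m + 1) (y - T y) := by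
  unfold als
  rw [Finsupp.lsum_single]
  rfl

private theorem al_right (hT : ∀ c, T (T c) = T c) (c : ℤ →₀ M) :
    al1 T (als T c) - al0 T (als T c) = c := by
  induction c using Finsupp.induction_linear with
  | zero => rw [map_zero, map_zero, map_zero, sub_zero]
  | add x y hx hy =>
    rw [map_add, map_add, map_add]
    conv_rhs => rw [← hx, ← hy]
    abel
  | single m y =>
    have h1 : T (y - T y) = 0 := by
      rw [map_sub, hT, sub_self]
    rw [als_s, map_sub, map_sub, al1_s, al1_s, al0_s, al0_s, h1, hT, sub_self, sub_zero,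
      Finsupp.single_zero, Finsupp.single_zero, sub_zero, zero_sub, sub_neg_eq_add,
      add_sub_cancel_right, ← Finsupp.single_add, add_sub_cancel]

private theorem al_left (hT : ∀ c, T (T c) = T c) (c : ℤ →₀ M) :
    als T (al1 T c - al0 T c) = c := by
  induction c using Finsupp.induction_linear with
  | zero => rw [map_zero, map_zero, sub_zero, map_zero]
  | add x y hx hy =>
    have h1 : al1 T (x + y) - al0 T (x + y) = (al1 T x - al0 T x) + (al1 T y - al0 T y) := by
      rw [map_add, map_add]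
      abel
    rw [h1, map_add, hx, hy]
  | single m y =>
    have h1 : T (y - T y) = 0 := by
      rw [map_sub, hT, sub_self]
    rw [al1_s, al0_s, map_sub, als_s, als_s, h1, hT, sub_self, sub_zero, Finsupp.single_zero,
      Finsupp.single_zero, sub_zero, zero_sub, sub_neg_eq_add, sub_add_cancel,
      ← Finsupp.single_add, add_sub_cancel]

end alg

private theorem dmT {R : Type} [CommRing R] {Z Z' : Type} [TopologicalSpace Z]
    [TopologicalSpace Z'] {n : ℕ} (f : C(Z, Z')) (x : Ch R Z (n + 1)) :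
    dC R Z' n (mapC R (n + 1) f x) = mapC R n f (dC R Z n x) :=
  congrArg (fun g => g x) (dC_mapC (R := R) (n := n) f)

private theorem mmT {R : Type} [CommRing R] {Z Z' Z'' : Type} [TopologicalSpace Z]
    [TopologicalSpace Z'] [TopologicalSpace Z''] {n : ℕ} (f : C(Z, Z')) (g : C(Z', Z''))
    (x : Ch R Z n) : mapC R n g (mapC R n f x) = mapC R n (g.comp f) x :=
  (congrArg (fun h => h x) (mapC_comp (R := R) (n := n) f g)).symm

private theorem rgT {R : Type} [CommRing R] {Z Z' : Type} [TopologicalSpace Z]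
    [TopologicalSpace Z'] {n : ℕ} (f : C(Z, Z')) (x : Ch R Z n) (h : x ∈ LinearMap.range (dC R Z n)) :
    mapC R n f x ∈ LinearMap.range (dC R Z' n) := by
  obtain ⟨w, rfl⟩ := h
  exact ⟨mapC R (n + 1) f w, dmT f w⟩

private theorem lameT {R : Type} [CommRing R] {D E F : Type} [TopologicalSpace D] [DiscreteTopology D]
    [TopologicalSpace E] [TopologicalSpace F] [DiscreteTopology F] {k : ℕ} (i : D → C(LW F k, E))
    (d : D) (y : F →₀ R) :
    LamE R i (Finsupp.single d y) = mapC R k (i d) (Lam R F k y) := by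
  unfold LamE
  rw [Finsupp.lsum_single]
  rfl

theorem tel_acyc (R : Type) [CommRing R] {F : Type} [TopologicalSpace F] [DiscreteTopology F]
    [Finite F] [CompactSpace (LW F 3)] [TopologicalSpace.MetrizableSpace (LW F 3)]
    (p q : C(LW F 3, LW F 3)) (T : (F →₀ R) →ₗ[R] (F →₀ R)) (hT : ∀ c, T (T c) = T c)
    (hp : ∀ c, mapC R 3 p (Lam R F 3 c) - Lam R F 3 (T c) ∈ LinearMap.range (dC R (LW F 3) 3))
    (hq : ∀ c, mapC R 3 q (Lam R F 3 c) - Lam R F 3 (c - T c) ∈ LinearMap.range (dC R (LW F 3) 3))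
    (n : ℕ) (z : Ch R (Tel p q) (n + 2)) (hz : dC R (Tel p q) (n + 1) z = 0) :
    z ∈ LinearMap.range (dC R (Tel p q) (n + 2)) := by
  have hE : LCS (ℤ × LW F 3) := lcs_prod lcs_discrete lcs_compact
  let d₀ : C(ℤ × LW F 3, ℤ × LW F 3) := ⟨telD0 q, (telD0_proper q.continuous).continuous⟩
  let d₁ : C(ℤ × LW F 3, ℤ × LW F 3) := ⟨telD1 p, (telD1_proper p.continuous).continuous⟩
  let i : ℤ → C(LW F 3, ℤ × LW F 3) := fun d => inD d
  have hi : LSum i := lsum_inD
  have k1 : ∀ c : ℤ →₀ (F →₀ R), mapC R 3 d₁ (LamE R i c) - LamE R i (al1 T c) ∈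
      LinearMap.range (dC R (ℤ × LW F 3) 3) := by
    intro c
    induction c using Finsupp.induction_linear with
    | zero =>
      rw [map_zero, map_zero, map_zero, map_zero, sub_zero]
      exact Submodule.zero_mem _
    | add x y hx hy =>
      have h1 : mapC R 3 d₁ (LamE R i (x + y)) - LamE R i (al1 T (x + y)) =
          (mapC R 3 d₁ (LamE R i x) - LamE R i (al1 T x)) +
            (mapC R 3 d₁ (LamE R i y) - LamE R i (al1 T y)) := by
        rw [map_add, map_add, map_add, map_add]
        abel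
      rw [h1]
      exact Submodule.add_mem _ hx hy
    | single m y =>
      have h1 : d₁.comp (i m) = (i m).comp p := rfl
      rw [lameT, al1_s, lameT, mmT, h1, ← mmT, ← map_sub]
      exact rgT (i m) _ (hp y)
  have k0 : ∀ c : ℤ →₀ (F →₀ R), mapC R 3 d₀ (LamE R i c) - LamE R i (al0 T c) ∈
      LinearMap.range (dC R (ℤ × LW F 3) 3) := by
    intro c
    induction c using Finsupp.induction_linear with
    | zero =>
      rw [map_zero, map_zero, map_zero, map_zero, sub_zero]
      exact Submodule.zero_mem _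
    | add x y hx hy =>
      have h1 : mapC R 3 d₀ (LamE R i (x + y)) - LamE R i (al0 T (x + y)) =
          (mapC R 3 d₀ (LamE R i x) - LamE R i (al0 T x)) +
            (mapC R 3 d₀ (LamE R i y) - LamE R i (al0 T y)) := by
        rw [map_add, map_add, map_add, map_add]
        abel
      rw [h1]
      exact Submodule.add_mem _ hx hy
    | single m y =>
      have h1 : d₀.comp (i m) = (i (m - 1)).comp q := rfl
      rw [lameT, al0_s, lameT, mmT, h1, ← mmT, ← map_sub]
      exact rgT (i (m - 1)) _ (hq y)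
  refine hc_acyc R d₀ d₁ hE hE (telD0_proper q.continuous) (telD1_proper p.continuous) n ?_ ?_ z hz
  · intro v hv
    by_cases hn : n + 1 + 1 = 3
    · obtain rfl : n = 1 := by omega
      obtain ⟨c, hc⟩ := ls_eq R (k := 2) hi v hv
      refine ⟨LamE R i (als T c), lame_cyc R (k := 2) i _, ?_⟩
      have h1 := k1 (als T c)
      have h0 := k0 (als T c)
      have h2 := al_right T hT c
      have h3 : v - (mapC R 3 d₁ (LamE R i (als T c)) - mapC R 3 d₀ (LamE R i (als T c))) =
          (v - LamE R i c) - (mapC R 3 d₁ (LamE R i (als T c)) - LamE R i (al1 T (als T c))) +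
            (mapC R 3 d₀ (LamE R i (als T c)) - LamE R i (al0 T (als T c))) := by
        have h4 : LamE R i c = LamE R i (al1 T (als T c)) - LamE R i (al0 T (als T c)) := by
          rw [← map_sub, h2]
        rw [h4]
        abel
      change v - (mapC R 3 d₁ (LamE R i (als T c)) - mapC R 3 d₀ (LamE R i (als T c))) ∈ _
      rw [h3]
      exact Submodule.add_mem _ (Submodule.sub_mem _ hc h1) h0
    · refine ⟨0, map_zero _, ?_⟩
      rw [map_zero, map_zero, sub_zero, sub_zero]
      exact ls_ne R hi (n + 1) hn v hv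
  · intro e he h
    by_cases hn : n + 1 = 3
    · obtain rfl : n = 2 := by omega
      obtain ⟨c, hc⟩ := ls_eq R (k := 2) hi e he
      have h1 := k1 c
      have h0 := k0 c
      have h5 := rgT d₁ _ hc
      have h6 := rgT d₀ _ hc
      rw [map_sub] at h5 h6
      have h7 : LamE R i (al1 T c - al0 T c) =
          (mapC R 3 d₁ e - mapC R 3 d₀ e) - (mapC R 3 d₁ e - mapC R 3 d₁ (LamE R i c)) +
            (mapC R 3 d₀ e - mapC R 3 d₀ (LamE R i c)) -
            (mapC R 3 d₁ (LamE R i c) - LamE R i (al1 T c)) +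
            (mapC R 3 d₀ (LamE R i c) - LamE R i (al0 T c)) := by
        have h11 : LamE R i (al1 T c - al0 T c) = LamE R i (al1 T c) - LamE R i (al0 T c) :=
          map_sub (LamE R i) (al1 T c) (al0 T c)
        refine h11.trans ?_
        abel
      have h8 : LamE R i (al1 T c - al0 T c) ∈ LinearMap.range (dC R (ℤ × LW F 3) 3) := by
        rw [h7]
        exact Submodule.add_mem _ (Submodule.sub_mem _ (Submodule.add_mem _
          (Submodule.sub_mem _ h h5) h6) h1) h0
      have h9 := ls_inj R (k := 2) hi _ h8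
      have h10 := al_left T hT c
      rw [h9, map_zero] at h10
      rw [← h10, map_zero, sub_zero] at hc
      exact hc
    · exact ls_ne R hi n hn e he

end Pool.H93.FN
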