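import Pool.Agent.H93.FN.Tlh
import Pool.Agent.H93.FN.Smt
import Pool.Agent.H18.AR.XcP

/-!
# [H93 FN XCH] The homology of the open model

`L = LW F 3`, `p_* = T`, `q_* = 1 - T` on `H_3 (L)`, `T T = T`; `BB b = Σ_w (rep w)_* φ₀_* (Lam (b w))`. If `H_n (Y) = 0` for `n ≥ 1`, `n ≠ 3`, every 3-cycle of `Y` is homologous to some `BB b`, and `BB b` is a boundary iff `T (b w) = b w` for all `w`, then `H_n (Xc) = 0` for `n ≥ 2`.

PROOF (complete). `hc_acyc` with `E = Cst P × ℕ × L`, `V = Y ⊕ E`, `d₀ = xcD0`, `d₁ = xcD1` as continuous maps (`xcD0_proper`, `xcD1_proper`; `lcs_sum hY _`, `lcs_prod lcs_discrete (lcs_prod lcs_discrete lcs_compact)`). `D = Cst P × ℕ`, `i (w, k) = (inD w).comp (inD k)`, `LSum i` by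
`lsum_prod _ lsum_inD`. `d₁ ∘ i (w, k) = inrC ∘ i (w, k) ∘ p`, `d₀ ∘ i (w, k + 1) = inrC ∘ i (w, k) ∘ q`, `d₀ ∘ i (w, 0) = inlC ∘ (act w.rep) ∘ φ₀ ∘ q`. Modulo boundaries, for `c : D →₀ (F →₀ R)` (`Finsupp` induction as in `Tlh.lean`):
`mapC d₁ (LamE i c) ~ mapC inrC (LamE i (δ₁ c))`, `δ₁ = lsum (fun d => lsingle d ∘ₗ T)`; `mapC d₀ (LamE i c) ~ mapC inlC (BB (β c)) + mapC inrC (LamE i (δ₀ c))`, with `U = id - T`, `β = lsum (fun (w, k) => if k = 0 then lsingle w ∘ₗ U else 0)`,
`δ₀ = lsum (fun (w, k) => if k = 0 then 0 else lsingle (w, k - 1) ∘ₗ U)` (`match k`).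
hs, `n + 2 ≠ 3`: `v = mapC inlC u + mapC inrC v'` (`sum_rep`), cycles (`sum_cyc`), boundaries (`hY0`, `ls_ne`), `e = 0`. hs, `n = 1`: `u ~ BB b` (`hYs`), `v' ~ LamE i a` (`ls_eq`). `e = LamE i (σ a - τ b)`, `σ = lsum (fun (w, k) => lsingle (w, k) ∘ₗ T - lsingle (w, k + 1) ∘ₗ U)`,
`τ = lsum (fun w => lsingle (w, 0) ∘ₗ U)`. `δ₁ (σ a) - δ₀ (σ a) = a`: for `single (w, k) y`: `δ₁` gives `single (w, k) (T y)` (`T (U y) = 0`), `δ₀` gives `- single (w, k) (U y)` (`U (T y) = 0`, `U (U y) = U y`). `β (σ a) = 0` (`U (T y) = 0`). `δ₁ (τ b) = 0`, `δ₀ (τ b) = 0`,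
`β (τ b) = U b` (`mapRange`). So `d₁ e - d₀ e ~ mapC inrC (LamE i a) + mapC inlC (BB (U b))`, and `BB b - BB (U b) = BB (T b)` is a boundary by `hYk` (`T (T (b w)) = T (b w)`).
hi, `n + 1 ≠ 3`: `ls_ne`. hi, `n = 2`: `e ~ LamE i c` (`ls_eq`), `sum_bd` gives `LamE i (δ₁ c - δ₀ c) ∈ range` and `BB (β c) ∈ range`. `ls_inj`: `δ₁ c = δ₀ c`, i.e. `T (c (w, k)) = U (c (w, k + 1))` for all `w`, `k`. Apply `T`: `T (c (w, k)) = 0`; so `U (c (w, k + 1)) = 0` and
`c (w, k + 1) = T (..) + U (..) = 0`, and `T (c (w, 0)) = 0`. `(β c) w = U (c (w, 0)) = c (w, 0)`; `hYk`: `T (c (w, 0)) = c (w, 0)`, so `c (w, 0) = 0`. `c = 0`, `e ∈ range`.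
-/

set_option autoImplicit false

namespace Pool.H93.FN

open Pool.Agent.H4.CU Pool.Agent.H18.AR Pool.H93.HM

variable (R : Type) [CommRing R] {F G Y : Type} [TopologicalSpace F] [DiscreteTopology F]
  [Group G] {P : Subgroup G} [TopologicalSpace Y] [MulAction G Y] [ContinuousConstSMul G Y]

/-- `Σ_w (rep w)_* φ₀_* (Lam (b w))` -/
noncomputable def BB (P : Subgroup G) (φ₀ : C(LW F 3, Y)) : (Cst P →₀ (F →₀ R)) →ₗ[R] Ch R Y 3 :=
  Finsupp.lsum R fun w => mapC R 3 (act w.rep) ∘ₗ mapC R 3 φ₀ ∘ₗ Lam R F 3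

section alg

variable {R : Type} [CommRing R] {W M : Type} [AddCommGroup M] [Module R M] (T : M →ₗ[R] M)

/-- the complementary projection -/
private def cU : M →ₗ[R] M := LinearMap.id - T

private theorem cU_ap (y : M) : cU T y = y - T y := rfl

/-- the map `d₁` on the combinations -/
private noncomputable def xl1 : (W × ℕ →₀ M) →ₗ[R] (W × ℕ →₀ M) :=
  Finsupp.lsum R fun d => Finsupp.lsingle d ∘ₗ T

/-- the map `d₀` on the combinations, the part in the rays -/
private noncomputable def xl0 : (W × ℕ →₀ M) →ₗ[R] (W × ℕ →₀ M) :=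
  Finsupp.lsum R fun d => match d.2 with
    | 0 => 0
    | k + 1 => Finsupp.lsingle (d.1, k) ∘ₗ cU T

/-- the map `d₀` on the combinations, the part in `Y` -/
private noncomputable def xlb : (W × ℕ →₀ M) →ₗ[R] (W →₀ M) :=
  Finsupp.lsum R fun d => match d.2 with
    | 0 => Finsupp.lsingle d.1 ∘ₗ cU T
    | _ + 1 => 0

/-- the section -/
private noncomputable def xls : (W × ℕ →₀ M) →ₗ[R] (W × ℕ →₀ M) :=
  Finsupp.lsum R fun d => Finsupp.lsingle d ∘ₗ T - Finsupp.lsingle (d.1, d.2 + 1) ∘ₗ cU T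

/-- the section on `Y` -/
private noncomputable def xlt : (W →₀ M) →ₗ[R] (W × ℕ →₀ M) :=
  Finsupp.lsum R fun w => Finsupp.lsingle (w, 0) ∘ₗ cU T

private theorem xl1_s (d : W × ℕ) (y : M) : xl1 T (Finsupp.single d y) = Finsupp.single d (T y) := by
  unfold xl1
  rw [Finsupp.lsum_single]
  rfl

private theorem xl0_z (w : W) (y : M) : xl0 T (Finsupp.single (w, 0) y) = 0 := by
  unfold xl0
  rw [Finsupp.lsum_single]
  rfl

private theorem xl0_s (w : W) (k : ℕ) (y : M) :
    xl0 T (Finsupp.single (w, k + 1) y) = Finsupp.single (w, k) (cU T y) := by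
  unfold xl0
  rw [Finsupp.lsum_single]
  rfl

private theorem xlb_z (w : W) (y : M) : xlb T (Finsupp.single (w, 0) y) = Finsupp.single w (cU T y) := by
  unfold xlb
  rw [Finsupp.lsum_single]
  rfl

private theorem xlb_s (w : W) (k : ℕ) (y : M) : xlb T (Finsupp.single (w, k + 1) y) = 0 := by
  unfold xlb
  rw [Finsupp.lsum_single]
  rfl

private theorem xls_s (w : W) (k : ℕ) (y : M) :
    xls T (Finsupp.single (w, k) y) =
      Finsupp.single (w, k) (T y) - Finsupp.single (w, k + 1) (cU T y) := by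
  unfold xls
  rw [Finsupp.lsum_single]
  rfl

private theorem xlt_s (w : W) (y : M) : xlt T (Finsupp.single w y) = Finsupp.single (w, 0) (cU T y) := by
  unfold xlt
  rw [Finsupp.lsum_single]
  rfl

variable {T}

private theorem TU (hT : ∀ c, T (T c) = T c) (y : M) : T (cU T y) = 0 := by
  rw [cU_ap, map_sub, hT, sub_self]

private theorem UT (hT : ∀ c, T (T c) = T c) (y : M) : cU T (T y) = 0 := by
  rw [cU_ap, hT, sub_self]

private theorem UU (hT : ∀ c, T (T c) = T c) (y : M) : cU T (cU T y) = cU T y := by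
  rw [cU_ap, TU hT, sub_zero]

private theorem xl_right (hT : ∀ c, T (T c) = T c) (c : W × ℕ →₀ M) :
    xl1 T (xls T c) - xl0 T (xls T c) = c := by
  induction c using Finsupp.induction_linear with
  | zero => rw [map_zero, map_zero, map_zero, sub_zero]
  | add x y hx hy =>
    rw [map_add, map_add, map_add]
    conv_rhs => rw [← hx, ← hy]
    abel
  | single d y =>
    obtain ⟨w, k⟩ := d
    have h1 : xl0 T (Finsupp.single (w, k) (T y)) = 0 := by
      cases k with
      | zero => exact xl0_z T w _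
      | succ k => rw [xl0_s, UT hT, Finsupp.single_zero]
    rw [xls_s, map_sub, map_sub, xl1_s, xl1_s, h1, xl0_s, TU hT, UU hT, hT, Finsupp.single_zero,
      sub_zero, zero_sub, sub_neg_eq_add, ← Finsupp.single_add, cU_ap, add_sub_cancel]

private theorem xlb_xls (hT : ∀ c, T (T c) = T c) (c : W × ℕ →₀ M) : xlb T (xls T c) = 0 := by
  induction c using Finsupp.induction_linear with
  | zero => rw [map_zero, map_zero]
  | add x y hx hy => rw [map_add, map_add, hx, hy, add_zero]
  | single d y =>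
    obtain ⟨w, k⟩ := d
    have h1 : xlb T (Finsupp.single (w, k) (T y)) = 0 := by
      cases k with
      | zero => rw [xlb_z, UT hT, Finsupp.single_zero]
      | succ k => exact xlb_s T w k _
    rw [xls_s, map_sub, h1, xlb_s, sub_zero]

private theorem xl1_xlt (hT : ∀ c, T (T c) = T c) (c : W →₀ M) : xl1 T (xlt T c) = 0 := by
  induction c using Finsupp.induction_linear with
  | zero => rw [map_zero, map_zero]
  | add x y hx hy => rw [map_add, map_add, hx, hy, add_zero]
  | single w y => rw [xlt_s, xl1_s, TU hT, Finsupp.single_zero]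

private theorem xl0_xlt (c : W →₀ M) : xl0 T (xlt T c) = 0 := by
  induction c using Finsupp.induction_linear with
  | zero => rw [map_zero, map_zero]
  | add x y hx hy => rw [map_add, map_add, hx, hy, add_zero]
  | single w y => rw [xlt_s, xl0_z]

private theorem xlb_xlt (hT : ∀ c, T (T c) = T c) (c : W →₀ M) :
    xlb T (xlt T c) = Finsupp.mapRange.linearMap (cU T) c := by
  induction c using Finsupp.induction_linear with
  | zero => rw [map_zero, map_zero, map_zero]
  | add x y hx hy => rw [map_add, map_add, map_add, hx, hy]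
  | single w y => rw [xlt_s, xlb_z, UU hT, Finsupp.mapRange.linearMap_apply, Finsupp.mapRange_single]

private theorem xl1_ap (c : W × ℕ →₀ M) (w : W) (k : ℕ) : xl1 T c (w, k) = T (c (w, k)) := by
  induction c using Finsupp.induction_linear with
  | zero => rw [map_zero, Finsupp.zero_apply, map_zero]
  | add x y hx hy => rw [map_add, Finsupp.add_apply, Finsupp.add_apply, map_add, hx, hy]
  | single d y =>
    rw [xl1_s]
    by_cases h : d = (w, k)
    · rw [h, Finsupp.single_eq_same, Finsupp.single_eq_same]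
    · rw [Finsupp.single_eq_of_ne (Ne.symm h), Finsupp.single_eq_of_ne (Ne.symm h), map_zero]

private theorem xl0_ap (c : W × ℕ →₀ M) (w : W) (k : ℕ) : xl0 T c (w, k) = cU T (c (w, k + 1)) := by
  induction c using Finsupp.induction_linear with
  | zero => rw [map_zero, Finsupp.zero_apply, Finsupp.zero_apply, map_zero]
  | add x y hx hy => rw [map_add, Finsupp.add_apply, Finsupp.add_apply, map_add, hx, hy]
  | single d y =>
    obtain ⟨w', k'⟩ := d
    cases k' with
    | zero =>
      rw [xl0_z, Finsupp.zero_apply, Finsupp.single_eq_of_ne, map_zero]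
      intro h
      exact absurd (congrArg Prod.snd h) (Nat.succ_ne_zero k)
    | succ j =>
      rw [xl0_s]
      by_cases h : ((w', j) : W × ℕ) = (w, k)
      · have h1 : w' = w := congrArg Prod.fst h
        have h2 : j = k := congrArg Prod.snd h
        rw [h1, h2, Finsupp.single_eq_same, Finsupp.single_eq_same]
      · have h3 : ((w', j + 1) : W × ℕ) ≠ (w, k + 1) := by
          intro h4
          apply h
          have h1 : w' = w := congrArg Prod.fst h4
          have h2 : j + 1 = k + 1 := congrArg Prod.snd h4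
          rw [h1, Nat.succ_injective h2]
        rw [Finsupp.single_eq_of_ne (Ne.symm h), Finsupp.single_eq_of_ne (Ne.symm h3), map_zero]

private theorem xlb_ap (c : W × ℕ →₀ M) (w : W) : xlb T c w = cU T (c (w, 0)) := by
  induction c using Finsupp.induction_linear with
  | zero => rw [map_zero, Finsupp.zero_apply, Finsupp.zero_apply, map_zero]
  | add x y hx hy => rw [map_add, Finsupp.add_apply, Finsupp.add_apply, map_add, hx, hy]
  | single d y =>
    obtain ⟨w', k'⟩ := d
    cases k' with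
    | zero =>
      rw [xlb_z]
      by_cases h : w' = w
      · rw [h, Finsupp.single_eq_same, Finsupp.single_eq_same]
      · have h3 : ((w', 0) : W × ℕ) ≠ (w, 0) := fun h4 => h (congrArg Prod.fst h4)
        rw [Finsupp.single_eq_of_ne (Ne.symm h), Finsupp.single_eq_of_ne (Ne.symm h3), map_zero]
    | succ j =>
      rw [xlb_s, Finsupp.zero_apply, Finsupp.single_eq_of_ne, map_zero]
      intro h
      exact absurd (congrArg Prod.snd h).symm (Nat.succ_ne_zero j)

end alg

private theorem dmX {R : Type} [CommRing R] {Z Z' : Type} [TopologicalSpace Z]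
    [TopologicalSpace Z'] {n : ℕ} (f : C(Z, Z')) (x : Ch R Z (n + 1)) :
    dC R Z' n (mapC R (n + 1) f x) = mapC R n f (dC R Z n x) :=
  congrArg (fun g => g x) (dC_mapC (R := R) (n := n) f)

private theorem mmX {R : Type} [CommRing R] {Z Z' Z'' : Type} [TopologicalSpace Z]
    [TopologicalSpace Z'] [TopologicalSpace Z''] {n : ℕ} (f : C(Z, Z')) (g : C(Z', Z''))
    (x : Ch R Z n) : mapC R n g (mapC R n f x) = mapC R n (g.comp f) x :=
  (congrArg (fun h => h x) (mapC_comp (R := R) (n := n) f g)).symm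

private theorem rgX {R : Type} [CommRing R] {Z Z' : Type} [TopologicalSpace Z]
    [TopologicalSpace Z'] {n : ℕ} (f : C(Z, Z')) {x : Ch R Z n} (h : x ∈ LinearMap.range (dC R Z n)) :
    mapC R n f x ∈ LinearMap.range (dC R Z' n) := by
  obtain ⟨w, rfl⟩ := h
  exact ⟨mapC R (n + 1) f w, dmX f w⟩

private theorem lameX {R : Type} [CommRing R] {D E F : Type} [TopologicalSpace D] [DiscreteTopology D]
    [TopologicalSpace E] [TopologicalSpace F] [DiscreteTopology F] {k : ℕ} (i : D → C(LW F k, E))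
    (d : D) (y : F →₀ R) :
    LamE R i (Finsupp.single d y) = mapC R k (i d) (Lam R F k y) := by
  unfold LamE
  rw [Finsupp.lsum_single]
  rfl

private theorem BB_s {R : Type} [CommRing R] {F G Y : Type} [TopologicalSpace F] [DiscreteTopology F]
    [Group G] {P : Subgroup G} [TopologicalSpace Y] [MulAction G Y] [ContinuousConstSMul G Y]
    (φ₀ : C(LW F 3, Y)) (w : Cst P) (y : F →₀ R) :
    BB R P φ₀ (Finsupp.single w y) = mapC R 3 (act w.rep) (mapC R 3 φ₀ (Lam R F 3 y)) := by
  unfold BB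
  rw [Finsupp.lsum_single]
  rfl

theorem xc_acyc [Finite F] [Countable G] [CompactSpace (LW F 3)]
    [TopologicalSpace.MetrizableSpace (LW F 3)] (hY : LCS Y) (pY : ProperAct G Y)
    (p q : C(LW F 3, LW F 3)) (φ₀ : C(LW F 3, Y)) (T : (F →₀ R) →ₗ[R] (F →₀ R))
    (hT : ∀ c, T (T c) = T c)
    (hp : ∀ c, mapC R 3 p (Lam R F 3 c) - Lam R F 3 (T c) ∈ LinearMap.range (dC R (LW F 3) 3))
    (hq : ∀ c, mapC R 3 q (Lam R F 3 c) - Lam R F 3 (c - T c) ∈ LinearMap.range (dC R (LW F 3) 3))
    (hY0 : ∀ n, n + 1 ≠ 3 → ∀ z : Ch R Y (n + 1), dC R Y n z = 0 →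
      z ∈ LinearMap.range (dC R Y (n + 1)))
    (hYs : ∀ z : Ch R Y 3, dC R Y 2 z = 0 → ∃ b, z - BB R P φ₀ b ∈ LinearMap.range (dC R Y 3))
    (hYk : ∀ b, BB R P φ₀ b ∈ LinearMap.range (dC R Y 3) ↔ ∀ w, T (b w) = b w)
    (n : ℕ) (z : Ch R (Xc P p q φ₀) (n + 2)) (hz : dC R (Xc P p q φ₀) (n + 1) z = 0) :
    z ∈ LinearMap.range (dC R (Xc P p q φ₀) (n + 2)) := by
  have hE : LCS (Cst P × ℕ × LW F 3) := lcs_prod lcs_discrete (lcs_prod lcs_discrete lcs_compact)
  have hV : LCS (Y ⊕ (Cst P × ℕ × LW F 3)) := lcs_sum hY hE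
  let d₀ : C(Cst P × ℕ × LW F 3, Y ⊕ (Cst P × ℕ × LW F 3)) :=
    ⟨xcD0 P q φ₀, (xcD0_proper hY pY q.continuous φ₀.continuous).continuous⟩
  let d₁ : C(Cst P × ℕ × LW F 3, Y ⊕ (Cst P × ℕ × LW F 3)) :=
    ⟨xcD1 P p, (xcD1_proper hY p.continuous).continuous⟩
  let i : Cst P × ℕ → C(LW F 3, Cst P × ℕ × LW F 3) := fun d =>
    (inD d.1 : C(ℕ × LW F 3, Cst P × ℕ × LW F 3)).comp (inD d.2)
  have hi : LSum i := lsum_prod (fun k : ℕ => (inD k : C(LW F 3, ℕ × LW F 3))) lsum_inD
  have k1 : ∀ c : Cst P × ℕ →₀ (F →₀ R), mapC R 3 d₁ (LamE R i c) - mapC R 3 inrC (LamE R i (xl1 T c)) ∈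
      LinearMap.range (dC R (Y ⊕ (Cst P × ℕ × LW F 3)) 3) := by
    intro c
    induction c using Finsupp.induction_linear with
    | zero =>
      rw [map_zero, map_zero, map_zero, map_zero, map_zero, sub_zero]
      exact Submodule.zero_mem _
    | add x y hx hy =>
      have h1 : mapC R 3 d₁ (LamE R i (x + y)) - mapC R 3 inrC (LamE R i (xl1 T (x + y))) =
          (mapC R 3 d₁ (LamE R i x) - mapC R 3 inrC (LamE R i (xl1 T x))) +
            (mapC R 3 d₁ (LamE R i y) - mapC R 3 inrC (LamE R i (xl1 T y))) := by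
        rw [map_add, map_add, map_add, map_add, map_add]
        abel
      rw [h1]
      exact Submodule.add_mem _ hx hy
    | single d y =>
      have h1 : d₁.comp (i d) = (inrC.comp (i d)).comp p := rfl
      rw [lameX, xl1_s, lameX, mmX, mmX, h1, ← mmX, ← map_sub]
      exact rgX _ (hp y)
  have k0 : ∀ c : Cst P × ℕ →₀ (F →₀ R), mapC R 3 d₀ (LamE R i c) -
      (mapC R 3 inlC (BB R P φ₀ (xlb T c)) + mapC R 3 inrC (LamE R i (xl0 T c))) ∈
      LinearMap.range (dC R (Y ⊕ (Cst P × ℕ × LW F 3)) 3) := by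
    intro c
    induction c using Finsupp.induction_linear with
    | zero =>
      simp only [map_zero, add_zero, sub_zero]
      exact Submodule.zero_mem _
    | add x y hx hy =>
      have h1 : mapC R 3 d₀ (LamE R i (x + y)) -
          (mapC R 3 inlC (BB R P φ₀ (xlb T (x + y))) + mapC R 3 inrC (LamE R i (xl0 T (x + y)))) =
          (mapC R 3 d₀ (LamE R i x) -
            (mapC R 3 inlC (BB R P φ₀ (xlb T x)) + mapC R 3 inrC (LamE R i (xl0 T x)))) +
          (mapC R 3 d₀ (LamE R i y) -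
            (mapC R 3 inlC (BB R P φ₀ (xlb T y)) + mapC R 3 inrC (LamE R i (xl0 T y)))) := by
        simp only [map_add]
        abel
      rw [h1]
      exact Submodule.add_mem _ hx hy
    | single d y =>
      obtain ⟨w, k⟩ := d
      cases k with
      | zero =>
        have h1 : d₀.comp (i (w, 0)) = ((inlC.comp (act w.rep)).comp φ₀).comp q := rfl
        rw [lameX, xlb_z, xl0_z, map_zero, map_zero, add_zero, BB_s, mmX, mmX, mmX, h1, ← mmX, ← map_sub]
        exact rgX _ (hq y)
      | succ j =>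
        have h1 : d₀.comp (i (w, j + 1)) = (inrC.comp (i (w, j))).comp q := rfl
        rw [lameX, xlb_s, xl0_s, map_zero, map_zero, zero_add, lameX, mmX, mmX, h1, ← mmX, ← map_sub]
        exact rgX _ (hq y)
  refine hc_acyc R d₀ d₁ hV hE (xcD0_proper hY pY q.continuous φ₀.continuous)
    (xcD1_proper hY p.continuous) n ?_ ?_ z hz
  · intro v hv
    obtain ⟨u, v', rfl⟩ := sum_rep R (n + 2) v
    obtain ⟨hu, hv'⟩ := sum_cyc R (n + 1) u v' hv
    by_cases hn : n + 1 + 1 = 3
    · obtain rfl : n = 1 := by omega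
      obtain ⟨b, hb⟩ := hYs u hu
      obtain ⟨a, ha⟩ := ls_eq R (k := 2) hi v' hv'
      refine ⟨LamE R i (xls T a - xlt T b), lame_cyc R (k := 2) i _, ?_⟩
      have h1 := k1 (xls T a - xlt T b)
      have h0 := k0 (xls T a - xlt T b)
      have e1 : xl1 T (xls T a - xlt T b) = xl1 T (xls T a) := by
        rw [map_sub, xl1_xlt hT, sub_zero]
      have e0 : xl0 T (xls T a - xlt T b) = xl0 T (xls T a) := by
        rw [map_sub, xl0_xlt, sub_zero]
      have eb : xlb T (xls T a - xlt T b) = - Finsupp.mapRange.linearMap (cU T) b := by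
        rw [map_sub, xlb_xls hT, xlb_xlt hT, zero_sub]
      have hbT : BB R P φ₀ (Finsupp.mapRange.linearMap T b) ∈ LinearMap.range (dC R Y 3) := by
        rw [hYk]
        intro w
        rw [Finsupp.mapRange.linearMap_apply, Finsupp.mapRange_apply, hT]
      have hsum : Finsupp.mapRange.linearMap T b + Finsupp.mapRange.linearMap (cU T) b = b := by
        refine Finsupp.ext fun w => ?_
        rw [Finsupp.add_apply, Finsupp.mapRange.linearMap_apply, Finsupp.mapRange.linearMap_apply,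
          Finsupp.mapRange_apply, Finsupp.mapRange_apply, cU_ap, add_sub_cancel]
      rw [e1] at h1
      have eneg : BB R P φ₀ (-(Finsupp.mapRange.linearMap (cU T) b)) =
          -(BB R P φ₀ (Finsupp.mapRange.linearMap (cU T) b)) :=
        map_neg (BB R P φ₀) (Finsupp.mapRange.linearMap (cU T) b)
      rw [e0, eb, eneg, map_neg] at h0
      have hBb : BB R P φ₀ b = BB R P φ₀ (Finsupp.mapRange.linearMap T b) +
          BB R P φ₀ (Finsupp.mapRange.linearMap (cU T) b) := by
        rw [← map_add, hsum]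
      have hLa : LamE R i a = LamE R i (xl1 T (xls T a)) - LamE R i (xl0 T (xls T a)) := by
        rw [← map_sub, xl_right hT]
      have h5 := rgX (inlC : C(Y, Y ⊕ (Cst P × ℕ × LW F 3))) hb
      have h6 := rgX (inrC : C(Cst P × ℕ × LW F 3, Y ⊕ (Cst P × ℕ × LW F 3))) ha
      have h7 := rgX (inlC : C(Y, Y ⊕ (Cst P × ℕ × LW F 3))) hbT
      rw [map_sub, hBb, map_add] at h5
      rw [map_sub, hLa, map_sub] at h6
      have h8 := Submodule.add_mem _ (Submodule.sub_mem _ (Submodule.add_mem _ (Submodule.add_mem _ h5 h6) h7) h1) h0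
      refine (congrArg (fun x => x ∈ LinearMap.range (dC R (Y ⊕ (Cst P × ℕ × LW F 3)) 3)) ?_).mp h8
      change _ = mapC R 3 inlC u + mapC R 3 inrC v' -
        (mapC R 3 d₁ (LamE R i (xls T a - xlt T b)) - mapC R 3 d₀ (LamE R i (xls T a - xlt T b)))
      abel
    · refine ⟨0, map_zero _, ?_⟩
      rw [map_zero, map_zero, sub_zero, sub_zero]
      exact Submodule.add_mem _ (rgX _ (hY0 (n + 1) hn u hu)) (rgX _ (ls_ne R hi (n + 1) hn v' hv'))
  · intro e he h
    by_cases hn : n + 1 = 3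
    · obtain rfl : n = 2 := by omega
      obtain ⟨c, hc⟩ := ls_eq R (k := 2) hi e he
      have h1 := k1 c
      have h0 := k0 c
      have h5 := rgX d₁ hc
      have h6 := rgX d₀ hc
      rw [map_sub] at h5 h6
      have h8 := Submodule.add_mem _ (Submodule.sub_mem _ (Submodule.add_mem _
          (Submodule.sub_mem _ h h5) h6) h1) h0
      have h9 : mapC R 3 inlC (-(BB R P φ₀ (xlb T c))) +
          mapC R 3 inrC (LamE R i (xl1 T c) - LamE R i (xl0 T c)) ∈
          LinearMap.range (dC R (Y ⊕ (Cst P × ℕ × LW F 3)) 3) := by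
        refine (congrArg (fun x => x ∈ LinearMap.range (dC R (Y ⊕ (Cst P × ℕ × LW F 3)) 3)) ?_).mp h8
        rw [map_neg, map_sub]
        change (mapC R 3 d₁ e - mapC R 3 d₀ e) - (mapC R 3 d₁ e - mapC R 3 d₁ (LamE R i c)) +
          (mapC R 3 d₀ e - mapC R 3 d₀ (LamE R i c)) - _ + _ = _
        abel
      obtain ⟨g1, g2⟩ := (sum_bd R 3 _ _).1 h9
      have g3 : LamE R i (xl1 T c - xl0 T c) ∈ LinearMap.range (dC R (Cst P × ℕ × LW F 3) 3) := by
        have g4 : LamE R i (xl1 T c - xl0 T c) = LamE R i (xl1 T c) - LamE R i (xl0 T c) :=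
          map_sub (LamE R i) (xl1 T c) (xl0 T c)
        rw [g4]
        exact g2
      have g5 := ls_inj R (k := 2) hi _ g3
      have g6 : BB R P φ₀ (xlb T c) ∈ LinearMap.range (dC R Y 3) := by
        have := Submodule.neg_mem _ g1
        rwa [neg_neg] at this
      rw [hYk] at g6
      have a1 : ∀ (w : Cst P) (k : ℕ), T (c (w, k)) = cU T (c (w, k + 1)) := by
        intro w k
        have g7 : xl1 T c = xl0 T c := (sub_eq_zero (a := xl1 T c) (b := xl0 T c)).1 g5
        rw [← xl1_ap, ← xl0_ap, g7]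
      have a2 : ∀ (w : Cst P) (k : ℕ), T (c (w, k)) = 0 := by
        intro w k
        rw [← hT, a1, TU hT]
      have a3 : c = 0 := by
        refine Finsupp.ext fun d => ?_
        obtain ⟨w, k⟩ := d
        rw [Finsupp.zero_apply]
        cases k with
        | zero =>
          have b1 := g6 w
          rw [xlb_ap, TU hT, cU_ap, a2, sub_zero] at b1
          exact b1.symm
        | succ j =>
          have b1 := a1 w j
          rw [a2, cU_ap, a2, sub_zero] at b1
          exact b1.symm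
      rw [a3, map_zero, sub_zero] at hc
      exact hc
    · exact ls_ne R hi n hn e he

end Pool.H93.FN
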