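import Pool.Agent.H93.FN.Cof
import Pool.Agent.H93.FN.Jmm
import Pool.Agent.H93.FN.Xch

/-!
# [H93 FN YBB] The third homology of `RY M`

PROOF (complete). `bb_jm`: both sides are linear in `b` (`comb_lin`), so `b = single w (single x a)`, `a • ` and `a = 1`: `BB b = mapC (act w.rep) (mapC φ₀ (gC (lch x)))` (`Lam (single x 1) = gC (lch x)`), `= mapC (act w.rep) (mapC (act x.gr) (jm (u x.ix))) + mapC (act w.rep) (dC ..)`,
`mapC (act g) ∘ mapC (act g') = mapC (act (g * g'))` (`mapC_comp`, `mul_smul`), `comb_psi`, `jm_act`, `dC_mapC`.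
`yb_sur`: `z ~ jm x'`, `bd x' = 0` (`jm_sur`), `x' - comb u x ∈ range bd` (`hu2`), `x = psi b` (`psi_surj`), `jm_bd`, `bb_jm`. `yb_ker`: `BB b ∈ range` iff `jm (comb u (psi b)) ∈ range` (`bb_jm`) iff `comb u (psi b) ∈ range bd`: `←` `jm_bd`, `→` `jm_inj`, where `bd (comb u x) = 0`
(`bd_act`, `hu1`, linearity); iff `psi b i = mulE ι e (psi b) i` for all `i` (`hu3`) iff `psi b = psi (mapRange Te b)` (`psi_te`) iff `b = mapRange Te b` (`psi_inj` for the difference) iff `Te (b w) = b w` for all `w`.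
-/

set_option autoImplicit false

namespace Pool.H93.FN

open Pool.Agent.H4.CU Pool.Agent.H18.AR Pool.Agent.H59.FS Pool.H93.HM Pool.H93.RC

variable {P : Type} [Group P] [Fintype P] {r : ℕ} {e : Fin r → Fin r → P → ℤ} (M : Model P r e)
  {u : Fin r → (M.N.cub 3 →₀ ℤ)} (φ₀ : C(LW (Sx (RP M) r) 3, RY M))

private theorem act_mul' (g g' : M.G) :
    (act (g * g') : C(RY M, RY M)) = (act g).comp (act g') := by
  refine ContinuousMap.ext fun z => ?_
  exact mul_smul g g' z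

private theorem mapC_act_mul (n : ℕ) (g g' : M.G) (z : Ch ℤ (RY M) n) :
    mapC ℤ n (act (g * g')) z = mapC ℤ n (act g) (mapC ℤ n (act g') z) := by
  rw [act_mul' M g g', mapC_comp]
  rfl

private theorem dC_map {Z Z' : Type} [TopologicalSpace Z] [TopologicalSpace Z'] (n : ℕ)
    (f : C(Z, Z')) (t : Ch ℤ Z (n + 1)) :
    mapC ℤ n f (dC ℤ Z n t) = dC ℤ Z' n (mapC ℤ (n + 1) f t) :=
  (congrArg (fun g => g t) (dC_mapC (R := ℤ) (n := n) f)).symm

private theorem bb_base (hφ : ∀ x : Sx (RP M) r, mapC ℤ 3 φ₀ (gC ℤ (lch x)) -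
      mapC ℤ 3 (act (x.gr : M.G)) (jm M 3 (u x.ix)) ∈ LinearMap.range (dC ℤ (RY M) 3))
    (w : Cst (RP M)) (x : Sx (RP M) r) :
    BB ℤ (RP M) φ₀ (Finsupp.single w (Finsupp.single x 1)) -
      jm M 3 (M.N.comb u (psi M (Finsupp.single w (Finsupp.single x 1)))) ∈
        LinearMap.range (dC ℤ (RY M) 3) := by
  obtain ⟨t, ht⟩ := hφ x
  have h1 : BB ℤ (RP M) φ₀ (Finsupp.single w (Finsupp.single x 1)) =
      mapC ℤ 3 (act w.rep) (mapC ℤ 3 φ₀ (gC ℤ (lch x))) := by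
    unfold BB
    rw [Finsupp.lsum_single, LinearMap.comp_apply, LinearMap.comp_apply]
    unfold Lam
    rw [Finsupp.linearCombination_single, one_smul]
  rw [h1, comb_psi, jm_act, mapC_act_mul, ← map_sub, ← ht, dC_map]
  exact ⟨_, rfl⟩

private theorem comb_bd (hu1 : ∀ j, M.N.bd ℤ 2 (u j) = 0) (x : Fin r → (M.G →₀ ℤ)) :
    M.N.bd ℤ 2 (M.N.comb u x) = 0 := by
  unfold PreCub.comb
  rw [map_sum]
  refine Finset.sum_eq_zero fun j _ => ?_
  rw [Finsupp.sum, map_sum]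
  refine Finset.sum_eq_zero fun g _ => ?_
  rw [map_smul, bd_act M.N ℤ M.isAct 2 g (u j), hu1, Finsupp.mapDomain_zero, smul_zero]

theorem bb_jm (hφ : ∀ x : Sx (RP M) r, mapC ℤ 3 φ₀ (gC ℤ (lch x)) -
      mapC ℤ 3 (act (x.gr : M.G)) (jm M 3 (u x.ix)) ∈ LinearMap.range (dC ℤ (RY M) 3))
    (b : Cst (RP M) →₀ (Sx (RP M) r →₀ ℤ)) :
    BB ℤ (RP M) φ₀ b - jm M 3 (M.N.comb u (psi M b)) ∈ LinearMap.range (dC ℤ (RY M) 3) := by
  obtain ⟨C, hC⟩ := comb_lin M.N (G := M.G) u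
  obtain ⟨Δ, hΔ⟩ : ∃ Δ : (Cst (RP M) →₀ (Sx (RP M) r →₀ ℤ)) →ₗ[ℤ] Ch ℤ (RY M) 3, ∀ b, Δ b =
      BB ℤ (RP M) φ₀ b - jm M 3 (M.N.comb u (psi M b)) := by
    refine ⟨BB ℤ (RP M) φ₀ - jm M 3 ∘ₗ C ∘ₗ psi M, fun b => ?_⟩
    rw [LinearMap.sub_apply, LinearMap.comp_apply, LinearMap.comp_apply, hC]
  rw [← hΔ]
  induction b using Finsupp.induction_linear with
  | zero =>
    rw [map_zero]
    exact zero_mem _
  | add b b' hb hb' =>
    rw [map_add]
    exact add_mem hb hb'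
  | single w y =>
    induction y using Finsupp.induction_linear with
    | zero =>
      rw [Finsupp.single_zero, map_zero]
      exact zero_mem _
    | add b b' hb hb' =>
      rw [Finsupp.single_add, map_add]
      exact add_mem hb hb'
    | single x a =>
      have h1 : (Finsupp.single w (Finsupp.single x a) : Cst (RP M) →₀ (Sx (RP M) r →₀ ℤ)) =
          a • Finsupp.single w (Finsupp.single x 1) := by
        rw [Finsupp.smul_single, Finsupp.smul_single, smul_eq_mul, mul_one]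
      rw [h1, map_smul]
      refine Submodule.smul_mem _ _ ?_
      rw [hΔ]
      exact bb_base M φ₀ hφ w x

theorem yb_sur (hφ : ∀ x : Sx (RP M) r, mapC ℤ 3 φ₀ (gC ℤ (lch x)) -
      mapC ℤ 3 (act (x.gr : M.G)) (jm M 3 (u x.ix)) ∈ LinearMap.range (dC ℤ (RY M) 3))
    (hu2 : ∀ z : M.N.cub 3 →₀ ℤ, M.N.bd ℤ 2 z = 0 →
      ∃ x : Fin r → (M.G →₀ ℤ), z - M.N.comb u x ∈ LinearMap.range (M.N.bd ℤ 3))
    (z : Ch ℤ (RY M) 3) (hz : dC ℤ (RY M) 2 z = 0) :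
    ∃ b, z - BB ℤ (RP M) φ₀ b ∈ LinearMap.range (dC ℤ (RY M) 3) := by
  obtain ⟨x', hx', h1⟩ := jm_sur M 2 z hz
  obtain ⟨x, t, ht⟩ := hu2 x' hx'
  obtain ⟨b, hb⟩ := psi_surj M x
  refine ⟨b, ?_⟩
  have h2 := bb_jm M φ₀ hφ b
  rw [hb] at h2
  have h3 : jm M 3 x' - jm M 3 (M.N.comb u x) ∈ LinearMap.range (dC ℤ (RY M) 3) := by
    rw [← map_sub, ← ht, jm_bd]
    exact ⟨_, rfl⟩
  have h4 : z - BB ℤ (RP M) φ₀ b = (z - jm M (2 + 1) x') + (jm M 3 x' - jm M 3 (M.N.comb u x)) -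
      (BB ℤ (RP M) φ₀ b - jm M 3 (M.N.comb u x)) := by
    abel
  rw [h4]
  exact sub_mem (add_mem h1 h3) h2

theorem yb_ker (hφ : ∀ x : Sx (RP M) r, mapC ℤ 3 φ₀ (gC ℤ (lch x)) -
      mapC ℤ 3 (act (x.gr : M.G)) (jm M 3 (u x.ix)) ∈ LinearMap.range (dC ℤ (RY M) 3))
    (hu1 : ∀ j, M.N.bd ℤ 2 (u j) = 0)
    (hu3 : ∀ x : Fin r → (M.G →₀ ℤ), M.N.comb u x ∈ LinearMap.range (M.N.bd ℤ 3) ↔
      ∀ i, x i = mulE M.ι e x i)
    (b : Cst (RP M) →₀ (Sx (RP M) r →₀ ℤ)) :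
    BB ℤ (RP M) φ₀ b ∈ LinearMap.range (dC ℤ (RY M) 3) ↔ ∀ w, Te M (b w) = b w := by
  have h2 := bb_jm M φ₀ hφ b
  have e1 : BB ℤ (RP M) φ₀ b ∈ LinearMap.range (dC ℤ (RY M) 3) ↔
      jm M 3 (M.N.comb u (psi M b)) ∈ LinearMap.range (dC ℤ (RY M) 3) := by
    constructor
    · intro h
      have h3 := sub_mem h h2
      rwa [sub_sub_cancel] at h3
    · intro h
      have h3 := add_mem h2 h
      rwa [sub_add_cancel] at h3
  have e2 : jm M 3 (M.N.comb u (psi M b)) ∈ LinearMap.range (dC ℤ (RY M) 3) ↔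
      M.N.comb u (psi M b) ∈ LinearMap.range (M.N.bd ℤ 3) := by
    constructor
    · intro h
      exact jm_inj M 2 _ (comb_bd M hu1 _) h
    · rintro ⟨t, ht⟩
      rw [← ht, jm_bd]
      exact ⟨_, rfl⟩
  rw [e1, e2, hu3]
  constructor
  · intro h
    have h3 : psi M b = psi M (Finsupp.mapRange.linearMap (Te M) b) := by
      funext i
      rw [psi_te]
      exact h i
    have h4 : b - Finsupp.mapRange.linearMap (Te M) b = 0 :=
      psi_inj M _ (by rw [map_sub, ← h3, sub_self])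
    intro w
    have h5 := congrArg (fun f => f w) (sub_eq_zero.1 h4)
    exact h5.symm
  · intro h i
    have h3 : Finsupp.mapRange.linearMap (Te M) b = b := by
      refine Finsupp.ext fun w => ?_
      exact h w
    rw [← psi_te, h3]

end Pool.H93.FN
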